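import Pool.Agent.H50.TL.TL8
import Pool.Agent.H50.RC.Fin

set_option autoImplicit false
set_option linter.unusedSectionVars false
set_option linter.unusedVariables false

/-! # The frequency of prime-free translates -/

namespace Pool.Agent.H50.TL

open Finset Filter Pool.Agent.H50.SC Pool.Agent.H50.RC

open scoped Classical

lemma log_four_le : Real.log 4 ≤ 3 / 2 := by
  have e1 : Real.log 4 = 2 * Real.log 2 := by
    rw [show (4 : ℝ) = 2 ^ (2 : ℕ) by norm_num, Real.log_pow]; norm_num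
  have e2 := Real.log_two_lt_d9
  linarith

lemma primorial_le_exp (y : ℝ) (hy : 0 ≤ y) :
    (primorial ⌊y⌋₊ : ℝ) ≤ Real.exp (3 / 2 * y) := by
  have h1 : (primorial ⌊y⌋₊ : ℝ) ≤ (4 : ℝ) ^ ⌊y⌋₊ := by
    exact_mod_cast primorial_le_four_pow _
  have h4 : (4 : ℝ) = Real.exp (Real.log 4) := (Real.exp_log (by norm_num)).symm
  refine h1.trans ?_
  have h7 : (4 : ℝ) ^ ⌊y⌋₊ = Real.exp ((⌊y⌋₊ : ℝ) * Real.log 4) := by
    rw [Real.exp_nat_mul, ← h4]
  rw [h7]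
  apply Real.exp_le_exp.2
  have h5 : (⌊y⌋₊ : ℝ) ≤ y := Nat.floor_le hy
  have h6 : 0 ≤ Real.log 4 := Real.log_nonneg (by norm_num)
  calc (⌊y⌋₊ : ℝ) * Real.log 4 ≤ y * (3 / 2) := mul_le_mul h5 log_four_le h6 hy
    _ = 3 / 2 * y := by ring

lemma mem_filter_inst (Z : Finset ℕ) (q : ℕ → Prop) (inst : DecidablePred q) (k : ℕ) :
    k ∈ @Finset.filter ℕ q inst Z ↔ k ∈ Z ∧ q k := Finset.mem_filter

/-- the classes modulo the small primes, combined in one class -/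
lemma class_fix (y : ℝ) (hy : 0 ≤ y) (Z : Finset ℕ) (r : ℕ → ℕ) :
    ∃ (b0 : ℕ), ∀ (n : ℤ), ((primorial ⌊y⌋₊ : ℕ) : ℤ) ∣ n - b0 → ∀ k ∈ Z,
      k ∉ Z.filter (fun k => ∀ p : ℕ, p.Prime → (p : ℝ) ≤ y → ¬ k ≡ r p [MOD p]) →
        ∃ p : ℕ, p.Prime ∧ (p : ℝ) ≤ y ∧ (p : ℤ) ∣ n + k := by
  obtain ⟨b0, hb0, hb0'⟩ := exists_crt ⌊y⌋₊ (fun p => (p - 1) * r p)
  have hfloor : ∀ p : ℕ, p ≤ ⌊y⌋₊ ↔ (p : ℝ) ≤ y := fun p => Nat.le_floor_iff hy
  refine ⟨b0, ?_⟩
  intro n hn k hk hkU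
  have h1 : ∃ p : ℕ, p.Prime ∧ (p : ℝ) ≤ y ∧ k ≡ r p [MOD p] := by
    by_contra hcon
    push Not at hcon
    apply hkU
    exact (mem_filter_inst _ _ _ _).2 ⟨hk, hcon⟩
  obtain ⟨p, hpp, hpy, hkp⟩ := h1
  have hp2 : p ≤ ⌊y⌋₊ := (hfloor p).2 hpy
  have hp1 := hpp.pos
  refine ⟨p, hpp, hpy, ?_⟩
  have h1 : b0 + k ≡ (p - 1) * r p + r p [MOD p] :=
    Nat.ModEq.add (hb0' p hpp hp2) hkp
  have h2 : (p - 1) * r p + r p = p * r p := by
    obtain ⟨q, hq⟩ : ∃ q, p = q + 1 := ⟨p - 1, by omega⟩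
    rw [hq]
    simp only [Nat.add_sub_cancel]
    ring
  rw [h2] at h1
  have h3 : p ∣ b0 + k := (Nat.modEq_zero_iff_dvd).1
    (h1.trans ((Nat.modEq_zero_iff_dvd).2 (Dvd.intro _ rfl)))
  have h4 : (p : ℤ) ∣ n - (b0 : ℤ) := by
    refine dvd_trans ?_ hn
    have : p ∣ primorial ⌊y⌋₊ := (hpp.dvd_primorial_iff).2 hp2
    exact_mod_cast this
  have h5 : (p : ℤ) ∣ ((b0 + k : ℕ) : ℤ) := by exact_mod_cast h3
  have h7 := dvd_add h4 h5
  have h8 : n - (b0 : ℤ) + ((b0 + k : ℕ) : ℤ) = n + k := by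
    push_cast
    ring
  rwa [h8] at h7

/-- greedy classes -/
lemma greedy_classes (y : ℝ) (hy : 0 ≤ y) (Z : Finset ℕ) :
    ∃ r : ℕ → ℕ, ((Z.filter (fun k => ∀ p : ℕ, p.Prime → (p : ℝ) ≤ y →
      ¬ k ≡ r p [MOD p])).card : ℝ) ≤ Z.card * WW y := by
  obtain ⟨r, hr1, hr2⟩ := greedy_all ((Finset.Icc 1 ⌊y⌋₊).filter Nat.Prime)
    (fun p hp => (Finset.mem_filter.1 hp).2) Z
  refine ⟨r, le_trans ?_ hr2⟩
  apply Nat.cast_le.2
  apply Finset.card_le_card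
  intro k hk
  have hk' := (mem_filter_inst _ _ _ _).1 hk
  apply (mem_filter_inst _ _ _ _).2
  refine ⟨hk'.1, fun p hp => ?_⟩
  rw [Finset.mem_filter, Finset.mem_Icc] at hp
  exact hk'.2 p hp.2 ((Nat.le_floor_iff hy).1 hp.1.2)

/-- the eventual facts for the last step -/
lemma facts_freq (e b η A : ℝ) (he : 0 < e) (hb0 : 0 < b) (hb1 : b < 1) (hη : b < η)
    (hA : 0 < A) :
    ∀ᶠ L : ℝ in atTop, 1000 ≤ L ∧ 2 ≤ Real.log L ∧ (Real.log L) ^ 2 ≤ L ∧
      3 / 2 * L ^ b + 2 ≤ e / 4 * L ∧ (2 * A + 24) * Real.log L ≤ L ^ (η - b) := by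
  have s1 := ev_logpow1 (η - b) (2 * A + 24) (by linarith)
  have s2 := ev_logpow 1 1 one_pos
  have s3 : ∀ᶠ L : ℝ in atTop, 12 / e + 1 ≤ L ^ (1 - b) :=
    (tendsto_rpow_atTop (by linarith)).eventually_ge_atTop _
  filter_upwards [s1, s2, s3, Real.tendsto_log_atTop.eventually_ge_atTop (2:ℝ),
    eventually_ge_atTop (1000:ℝ), eventually_ge_atTop (16 / e)] with L a1 a2 a3 a4 a5 a6
  have hL0 : 0 < L := by linarith
  refine ⟨a5, a4, ?_, ?_, a1⟩
  · rw [Real.rpow_one] at a2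
    linarith
  · have h1 : L ^ b * L ^ (1 - b) = L := by
      rw [← Real.rpow_add hL0]
      have : b + (1 - b) = 1 := by ring
      rw [this, Real.rpow_one]
    have h2 : 0 < L ^ b := Real.rpow_pos_of_pos hL0 _
    have h3 : L ^ b * (12 / e) ≤ L := by
      calc L ^ b * (12 / e) ≤ L ^ b * L ^ (1 - b) := by
            apply mul_le_mul_of_nonneg_left _ h2.le
            linarith
        _ = L := h1
    rw [div_le_iff₀ he] at a6
    have h4 : L ^ b * 12 ≤ L * e := by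
      have h5 := mul_le_mul_of_nonneg_right h3 he.le
      have h6 : L ^ b * (12 / e) * e = L ^ b * 12 := by field_simp
      rw [h6] at h5
      exact h5
    linarith

/-- the condition on the parameters -/
lemma param_ok (η ε e : ℝ) (hη : 0 < η) (hη1 : η < 1) (hε : 0 < ε) (hε1 : ε ≤ η / 4)
    (he : e = ε / 32) :
    (η / 2 - ε) * (1 + e) ^ 3 ≤ (1 / 2 - 8 * e) * ((1 - (1 - (η - 3 * e)) - 2 * e) * (1 - e)) := by
  have he0 : 0 < e := by rw [he]; positivity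
  have hε' : ε = 32 * e := by rw [he]; ring
  have he1 : 128 * e ≤ η := by linarith
  have he2 : e ^ 2 ≤ e := by nlinarith
  have he3 : e ^ 3 ≤ e := by
    have : e ^ 3 = e ^ 2 * e := by ring
    nlinarith
  have h1 : (1 + e) ^ 3 ≤ 1 + 7 * e := by
    have : (1 + e) ^ 3 = 1 + 3 * e + 3 * e ^ 2 + e ^ 3 := by ring
    linarith
  have h2 : (η / 2 - ε) * (1 + e) ^ 3 ≤ (η / 2 - ε) * (1 + 7 * e) :=
    mul_le_mul_of_nonneg_left h1 (by linarith)
  have h3 : (η / 2 - ε) * (1 + 7 * e) ≤ η / 2 - ε + 4 * e := by nlinarith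
  have h4 : η / 2 - 12 * e ≤
      (1 / 2 - 8 * e) * ((1 - (1 - (η - 3 * e)) - 2 * e) * (1 - e)) := by
    have e1 : (1 - (1 - (η - 3 * e)) - 2 * e) = η - 5 * e := by ring
    rw [e1]
    have e2 : (1 / 2 - 8 * e) * ((η - 5 * e) * (1 - e)) =
      ((1 / 2 - 8 * e) * (1 - e)) * (η - 5 * e) := by ring
    rw [e2]
    have e3 : 1 / 2 - 17 / 2 * e ≤ (1 / 2 - 8 * e) * (1 - e) := by nlinarith
    have e4 : (1 / 2 - 17 / 2 * e) * (η - 5 * e) ≤ ((1 / 2 - 8 * e) * (1 - e)) * (η - 5 * e) :=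
      mul_le_mul_of_nonneg_right e3 (by linarith)
    have e5 : η / 2 - 12 * e ≤ (1 / 2 - 17 / 2 * e) * (η - 5 * e) := by nlinarith
    linarith
  linarith

lemma last_num (X L l b η A N c : ℝ) (hL : 1000 ≤ L) (hl : 2 ≤ l) (hX : X = Real.exp L)
    (hb : 0 < b)
    (h1 : (2 * A + 24) * l ≤ L ^ (η - b)) (hA : 0 < A)
    (hN : X / 4 * Real.exp (-(3 / 2 * L ^ b)) ≤ N)
    (hc : N / 8 ≤ Real.exp (3 + 2 * ((A + 2 + 4) * l * L ^ b)) * c) :
    X * Real.exp (-L ^ η) ≤ c := by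
  have hL0 : 0 < L := by linarith
  have hX0 : 0 < X := by rw [hX]; exact Real.exp_pos _
  have hLb : 1 ≤ L ^ b := Real.one_le_rpow (by linarith) hb.le
  have hLη : L ^ η = L ^ b * L ^ (η - b) := by
    rw [← Real.rpow_add hL0]
    congr 1
    ring
  have h2 : 7 + 3 / 2 * L ^ b + 2 * ((A + 2 + 4) * l * L ^ b) ≤ L ^ η := by
    rw [hLη]
    have h3 : L ^ b * ((2 * A + 24) * l) ≤ L ^ b * L ^ (η - b) :=
      mul_le_mul_of_nonneg_left h1 (by linarith)
    have h4 : 7 + 3 / 2 * L ^ b ≤ 12 * l * L ^ b := by nlinarith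
    nlinarith
  obtain ⟨E, hE⟩ : ∃ E : ℝ, E = 3 + 2 * ((A + 2 + 4) * l * L ^ b) := ⟨_, rfl⟩
  rw [← hE] at hc
  have h3 : Real.exp (-E) * (N / 8) ≤ c := by
    have h4 := mul_le_mul_of_nonneg_left hc (Real.exp_pos (-E)).le
    rw [← mul_assoc, ← Real.exp_add, neg_add_cancel, Real.exp_zero, one_mul] at h4
    exact h4
  refine le_trans ?_ h3
  have h5 : Real.exp (-E) * ((X / 4 * Real.exp (-(3 / 2 * L ^ b))) / 8) ≤
      Real.exp (-E) * (N / 8) := by
    apply mul_le_mul_of_nonneg_left _ (Real.exp_pos _).le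
    linarith
  refine le_trans ?_ h5
  have h6 : Real.exp (-E) * ((X / 4 * Real.exp (-(3 / 2 * L ^ b))) / 8) =
      X * (Real.exp (-E + -(3 / 2 * L ^ b)) / 32) := by
    rw [Real.exp_add]
    ring
  rw [h6]
  apply mul_le_mul_of_nonneg_left _ hX0.le
  rw [le_div_iff₀ (by norm_num)]
  have h7 : (32:ℝ) ≤ Real.exp 4 := by
    have e1 := Real.exp_one_gt_d9
    have e2 : Real.exp 4 = (Real.exp 1 * Real.exp 1) * (Real.exp 1 * Real.exp 1) := by
      rw [← Real.exp_add, ← Real.exp_add]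
      norm_num
    rw [e2]
    have e3 : (2.7:ℝ) * 2.7 * (2.7 * 2.7) ≤
        (Real.exp 1 * Real.exp 1) * (Real.exp 1 * Real.exp 1) := by
      gcongr <;> linarith
    linarith
  calc Real.exp (-L ^ η) * 32 ≤ Real.exp (-L ^ η) * Real.exp 4 :=
        mul_le_mul_of_nonneg_left h7 (Real.exp_pos _).le
    _ = Real.exp (-L ^ η + 4) := by rw [Real.exp_add]
    _ ≤ _ := by
        apply Real.exp_le_exp.2
        linarith

/-- the general theorem: a set of translates and residue classes modulo the small primes -/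
theorem freq_gen (b e η A κ₀ : ℝ) (he0 : 0 < e) (he1 : 32 * e < 1) (hb2 : 2 * e < b)
    (hb1 : b < 1) (hη : b < η) (hA : 0 < A) (hκ0 : 0 ≤ κ₀) (hκ1 : κ₀ ≤ 1 / 2)
    (hpar : κ₀ * (1 + e) ^ 3 ≤ (1 / 2 - 8 * e) * ((b - 2 * e) * (1 - e))) :
    ∀ᶠ X : ℝ in atTop, ∀ Z : Finset ℕ,
      (∀ k ∈ Z, 1 ≤ k ∧ (k : ℝ) ≤ (Real.log X) ^ A) → ∀ r : ℕ → ℕ,
      ((Z.filter (fun k => ∀ p : ℕ, p.Prime → (p : ℝ) ≤ (Real.log X) ^ b →
        ¬ k ≡ r p [MOD p])).card : ℝ) ≤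
          κ₀ * Real.log X * Real.log (Real.log X) * WW ((Real.log X) ^ b) →
      ∀ x : ℝ, 0 ≤ x → x ≤ Real.exp ((Real.log X) ^ A) →
      X * Real.exp (-(Real.log X) ^ η) ≤
        (((Finset.Ioc ⌊x⌋₊ ⌊x + X⌋₊).filter (fun n => ∀ k ∈ Z, ∃ p : ℕ, p.Prime ∧
          (p : ℝ) ≤ Real.exp (Real.log X / Real.log (Real.log X)) ∧ p ∣ n + k ∧
            p < n + k)).card : ℝ) := by
  have hb0 : 0 < b := by linarith
  obtain ⟨a, ha⟩ : ∃ a : ℝ, a = 1 - b := ⟨_, rfl⟩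
  have hab : 1 - a = b := by rw [ha]; ring
  rw [← hab] at hpar
  have ev := (cover_cnt a e b (A + 2) κ₀ (by linarith) he0 he1
    (by linarith) (by linarith) hb0 (by linarith) hκ0 hκ1 hpar).and
    (facts_freq e b η A he0 hb0 hb1 hη hA)
  filter_upwards [Real.tendsto_log_atTop.eventually ev, eventually_ge_atTop (1:ℝ)] with X hX hX1
  obtain ⟨hcov, f1, f2, f3, f4, f5⟩ := hX
  intro Z hZ r hZc x hx hxA
  have hX0 : 0 < X := by linarith
  obtain ⟨L, hL⟩ : ∃ L : ℝ, L = Real.log X := ⟨_, rfl⟩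
  have hXL : X = Real.exp L := by rw [hL, Real.exp_log hX0]
  rw [← hL] at hcov f1 f2 f3 f4 f5 hZ hZc hxA ⊢
  obtain ⟨l, hl⟩ : ∃ l : ℝ, l = Real.log L := ⟨_, rfl⟩
  rw [← hl] at hcov f2 f3 f5 hZc ⊢
  have hL0 : 0 < L := by linarith
  have hl0 : 0 < l := by linarith
  obtain ⟨y, hy⟩ : ∃ y : ℝ, y = L ^ b := ⟨_, rfl⟩
  have hy0 : 0 < y := by rw [hy]; exact Real.rpow_pos_of_pos hL0 _
  have hy1 : 1 ≤ y := by rw [hy]; exact Real.one_le_rpow (by linarith) hb0.le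
  have hyL : y ≤ L := by
    rw [hy]
    calc L ^ b ≤ L ^ (1:ℝ) := Real.rpow_le_rpow_of_exponent_le (by linarith) hb1.le
      _ = L := Real.rpow_one L
  obtain ⟨b0, hU⟩ := class_fix y hy0.le Z r
  obtain ⟨U, hUdef⟩ : ∃ U : Finset ℕ, U = Z.filter (fun k => ∀ p : ℕ, p.Prime → (p : ℝ) ≤ y →
    ¬ k ≡ r p [MOD p]) := ⟨_, rfl⟩
  rw [← hy, ← hUdef] at hZc
  rw [← hUdef] at hU
  have hUZ : ∀ k ∈ U, k ∈ Z := by
    rw [hUdef]
    intro k hk
    exact ((mem_filter_inst _ _ _ _).1 hk).1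
  obtain ⟨P, hP⟩ : ∃ P : ℕ, P = primorial ⌊y⌋₊ := ⟨_, rfl⟩
  have hPpos : 0 < P := by rw [hP]; exact primorial_pos _
  have hPr : (P : ℝ) ≤ Real.exp (3 / 2 * y) := by rw [hP]; exact primorial_le_exp y hy0.le
  rw [← hP] at hU
  -- sizes
  have hLA0 : 0 < L ^ A := Real.rpow_pos_of_pos hL0 _
  have hLA1 : 1 ≤ L ^ A := Real.one_le_rpow (by linarith) hA.le
  have hLA2 : L ^ (A + 2) = L ^ A * L ^ 2 := by
    rw [Real.rpow_add hL0]
    congr 1
    rw [← Real.rpow_natCast]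
    norm_num
  have hE1000 : 1000 ≤ Real.exp L := by
    have := Real.add_one_le_exp L
    linarith
  have hEbig : 8 * Real.exp (L / 2) + 8 ≤ Real.exp L := by
    have e1 : Real.exp (L / 2) * Real.exp (L / 2) = Real.exp L := by
      rw [← Real.exp_add]
      congr 1
      ring
    have e2 := Real.add_one_le_exp (L / 2)
    nlinarith
  have hLl : L / l ≤ L / 2 := div_le_div_of_nonneg_left hL0.le (by norm_num) f2
  have hELl : 8 * Real.exp (L / l) + 8 ≤ X := by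
    have := Real.exp_le_exp.2 hLl
    rw [hXL]
    linarith
  have hyE : y ≤ Real.exp (L / l) := by
    have h1 : l ≤ L / l := by
      rw [le_div_iff₀ hl0]
      linarith
    calc y ≤ L := hyL
      _ = Real.exp l := by rw [hl, Real.exp_log hL0]
      _ ≤ Real.exp (L / l) := Real.exp_le_exp.2 h1
  obtain ⟨A₁, hA₁⟩ : ∃ A₁ : ℤ, A₁ = ⌊x + X / 8⌋ := ⟨_, rfl⟩
  obtain ⟨B₁, hB₁⟩ : ∃ B₁ : ℤ, B₁ = ⌊x + X / 2⌋ := ⟨_, rfl⟩
  have hAB : A₁ ≤ B₁ := by
    rw [hA₁, hB₁]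
    exact Int.floor_le_floor (by linarith)
  have hA1 : (A₁ : ℝ) ≤ x + X / 8 := by rw [hA₁]; exact Int.floor_le _
  have hA2 : x + X / 8 < (A₁ : ℝ) + 1 := by rw [hA₁]; exact Int.lt_floor_add_one _
  have hB1 : (B₁ : ℝ) ≤ x + X / 2 := by rw [hB₁]; exact Int.floor_le _
  have hB2 : x + X / 2 < (B₁ : ℝ) + 1 := by rw [hB₁]; exact Int.lt_floor_add_one _
  have hX1000 : 1000 ≤ X := by rw [hXL]; exact hE1000
  have hA0 : 0 ≤ A₁ := by
    have : (0:ℝ) ≤ x + X / 8 := by linarith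
    rw [hA₁]
    exact Int.floor_nonneg.2 this
  have hBh : (B₁ : ℝ) + L ^ A ≤ Real.exp (L ^ (A + 2)) := by
    have e1 : Real.exp (L ^ A) ≤ Real.exp (L ^ (A + 2)) / 4 := by
      have e2 : Real.exp (L ^ A) * Real.exp 2 ≤ Real.exp (L ^ (A + 2)) := by
        rw [← Real.exp_add]
        apply Real.exp_le_exp.2
        rw [hLA2]
        have : (3:ℝ) ≤ L ^ 2 := by nlinarith
        nlinarith
      have e3 : (4:ℝ) ≤ Real.exp 2 := by
        have e4 : Real.exp 2 = Real.exp 1 * Real.exp 1 := by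
          rw [← Real.exp_add]
          norm_num
        have e5 := Real.add_one_le_exp (1:ℝ)
        rw [e4]
        nlinarith
      have e6 := mul_le_mul_of_nonneg_left e3 (Real.exp_pos (L ^ A)).le
      linarith
    have e2 : X ≤ Real.exp (L ^ (A + 2)) / 4 := by
      have e2 : X * Real.exp 2 ≤ Real.exp (L ^ (A + 2)) := by
        rw [hXL, ← Real.exp_add]
        apply Real.exp_le_exp.2
        rw [hLA2]
        have h1 : 1 * L ^ 2 ≤ L ^ A * L ^ 2 := mul_le_mul_of_nonneg_right hLA1 (by positivity)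
        have h2 : L + 2 ≤ L ^ 2 := by nlinarith
        linarith
      have e3 : (4:ℝ) ≤ Real.exp 2 := by
        have e4 : Real.exp 2 = Real.exp 1 * Real.exp 1 := by
          rw [← Real.exp_add]
          norm_num
        have e5 := Real.add_one_le_exp (1:ℝ)
        rw [e4]
        nlinarith
      have e6 := mul_le_mul_of_nonneg_left e3 hX0.le
      linarith
    have e3 := Real.add_one_le_exp (L ^ A)
    linarith
  obtain ⟨N, hNdef⟩ : ∃ N : ℝ, N = ((B₁ : ℝ) - A₁) / P := ⟨_, rfl⟩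
  have hN1 : X / 4 * Real.exp (-(3 / 2 * L ^ b)) ≤ N := by
    rw [hNdef, le_div_iff₀ (by exact_mod_cast hPpos)]
    calc X / 4 * Real.exp (-(3 / 2 * L ^ b)) * P ≤
          X / 4 * Real.exp (-(3 / 2 * L ^ b)) * Real.exp (3 / 2 * L ^ b) := by
          apply mul_le_mul_of_nonneg_left _ (by positivity)
          rw [← hy]
          exact hPr
      _ = X / 4 := by
          rw [mul_assoc, ← Real.exp_add, neg_add_cancel, Real.exp_zero, mul_one]
      _ ≤ (B₁ : ℝ) - A₁ := by linarith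
  have hN2 : Real.exp ((1 - e / 4) * L) ≤ N := by
    refine le_trans ?_ hN1
    have e1 : (4:ℝ) ≤ Real.exp 2 := by
      have e4 : Real.exp 2 = Real.exp 1 * Real.exp 1 := by
        rw [← Real.exp_add]
        norm_num
      have e5 := Real.add_one_le_exp (1:ℝ)
      rw [e4]
      nlinarith
    have e2 : Real.exp ((1 - e / 4) * L) * Real.exp 2 ≤ X * Real.exp (-(3 / 2 * L ^ b)) := by
      rw [hXL, ← Real.exp_add, ← Real.exp_add]
      apply Real.exp_le_exp.2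
      linarith
    have e3 := mul_le_mul_of_nonneg_left e1 (Real.exp_pos ((1 - e / 4) * L)).le
    linarith
  have hU1 : ∀ k ∈ U, 1 ≤ k ∧ (k : ℝ) ≤ L ^ A := fun k hk => hZ k (hUZ k hk)
  have hUc' : (U.card : ℝ) ≤ κ₀ * L * l * WW (L ^ b) := by
    rw [← hy]
    exact hZc
  have hmain := hcov (L ^ A) hLA1
    (Real.rpow_le_rpow_of_exponent_le (by linarith) (by linarith)) U hU1 hUc' P hPpos (by
      intro p hp hpP
      rw [hP] at hpP
      have h1 := (hp.dvd_primorial_iff).1 hpP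
      rw [← hy]
      exact (Nat.le_floor_iff hy0.le).1 h1) (b0 : ℤ) A₁ B₁ hA0 hAB hBh
      (by rw [← hNdef]; exact hN2)
  rw [← hNdef, hab] at hmain
  refine last_num X L l b η A N _ f1 f2 hXL hb0 f5 hA hN1
    (hmain.trans ?_)
  apply mul_le_mul_of_nonneg_left _ (Real.exp_pos _).le
  apply Nat.cast_le.2
  apply Finset.card_le_card_of_injOn Int.toNat
  · intro n hn
    rw [Finset.mem_coe, Finset.mem_filter, Finset.mem_Ioc] at hn
    obtain ⟨⟨hn1, hn2⟩, hn3, hn4⟩ := hn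
    have hnpos : 0 ≤ n := by linarith
    obtain ⟨m, rfl⟩ := Int.eq_ofNat_of_zero_le hnpos
    rw [Int.toNat_natCast]
    have hm1 : (A₁ : ℝ) + 1 ≤ m := by exact_mod_cast hn1
    have hm2 : (m : ℝ) ≤ B₁ := by exact_mod_cast hn2
    rw [Finset.mem_coe, Finset.mem_filter, Finset.mem_Ioc]
    refine ⟨⟨?_, ?_⟩, ?_⟩
    · rw [Nat.floor_lt hx]
      linarith
    · apply Nat.le_floor
      linarith
    · intro k hk
      have hpm : ∀ p : ℕ, (p : ℝ) ≤ Real.exp (L / l) → p < m + k := by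
        intro p hp
        have : (p : ℝ) < m + k := by
          have h3 : (0 : ℝ) ≤ k := Nat.cast_nonneg _
          linarith
        exact_mod_cast this
      by_cases hkU : k ∈ U
      · obtain ⟨p, hp, hp1, hp2, hp3⟩ := hn4 k hkU
        have hp4 : (p : ℝ) ≤ Real.exp (L / l) := by
          refine hp2.trans (Real.exp_le_exp.2 ?_)
          apply div_le_div_of_nonneg_right _ hl0.le
          have h1 : e ^ 2 ≤ 1 := by nlinarith
          nlinarith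
        refine ⟨p, hp, hp4, ?_, hpm p hp4⟩
        have h2 : (p : ℤ) ∣ ((m + k : ℕ) : ℤ) := by
          push_cast
          exact hp3
        exact_mod_cast h2
      · obtain ⟨p, hp, hp1, hp2⟩ := hU m hn3 k hk hkU
        have hp4 : (p : ℝ) ≤ Real.exp (L / l) := hp1.trans hyE
        refine ⟨p, hp, hp4, ?_, hpm p hp4⟩
        have h2 : (p : ℤ) ∣ ((m + k : ℕ) : ℤ) := by
          push_cast
          exact hp2
        exact_mod_cast h2
  · intro n hn n' hn' hnn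
    have h1 : 0 ≤ n := by
      have := (Finset.mem_Ioc.1 (Finset.mem_filter.1 (Finset.mem_coe.1 hn)).1).1
      linarith
    have h2 : 0 ≤ n' := by
      have := (Finset.mem_Ioc.1 (Finset.mem_filter.1 (Finset.mem_coe.1 hn')).1).1
      linarith
    have h3 := Int.toNat_of_nonneg h1
    have h4 := Int.toNat_of_nonneg h2
    rw [← h3, ← h4]
    exact_mod_cast hnn

/-- **arbitrary sets of translates** -/
theorem freq (η ε A : ℝ) (hη : 0 < η) (hη1 : η < 1) (hε : 0 < ε) (hA : 0 < A) :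
    ∀ᶠ X : ℝ in atTop, ∀ Z : Finset ℕ,
      (∀ k ∈ Z, 1 ≤ k ∧ (k : ℝ) ≤ (Real.log X) ^ A) →
      (Z.card : ℝ) ≤ (η / 2 - ε) * Real.log X * Real.log (Real.log X) →
      ∀ x : ℝ, 0 ≤ x → x ≤ Real.exp ((Real.log X) ^ A) →
      X * Real.exp (-(Real.log X) ^ η) ≤
        (((Finset.Ioc ⌊x⌋₊ ⌊x + X⌋₊).filter (fun n => ∀ k ∈ Z, ∃ p : ℕ, p.Prime ∧
          (p : ℝ) ≤ Real.exp (Real.log X / Real.log (Real.log X)) ∧ p ∣ n + k ∧
            p < n + k)).card : ℝ) := by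
  obtain ⟨ε', hε'⟩ : ∃ ε' : ℝ, ε' = min ε (η / 4) := ⟨_, rfl⟩
  have hε'0 : 0 < ε' := by rw [hε']; positivity
  have hε'1 : ε' ≤ η / 4 := by rw [hε']; exact min_le_right _ _
  have hε'2 : ε' ≤ ε := by rw [hε']; exact min_le_left _ _
  obtain ⟨e, he⟩ : ∃ e : ℝ, e = ε' / 32 := ⟨_, rfl⟩
  have he0 : 0 < e := by rw [he]; positivity
  have hpar := param_ok η ε' e hη hη1 hε'0 hε'1 he
  have h1 : Tendsto (fun X : ℝ => Real.log (Real.log X)) atTop atTop :=
    Real.tendsto_log_atTop.comp Real.tendsto_log_atTop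
  have e1 : 1 - (1 - (η - 3 * e)) - 2 * e = (η - 3 * e) - 2 * e := by ring
  rw [e1] at hpar
  filter_upwards [freq_gen (η - 3 * e) e η A (η / 2 - ε') he0 (by linarith) (by linarith)
    (by linarith) (by linarith) hA (by linarith) (by linarith) hpar,
    Real.tendsto_log_atTop.eventually_ge_atTop (0:ℝ), h1.eventually_ge_atTop 0] with X hX h2 h3
  intro Z hZ hZc
  obtain ⟨r, hr⟩ := greedy_classes ((Real.log X) ^ (η - 3 * e)) (Real.rpow_nonneg h2 _) Z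
  refine hX Z hZ r (hr.trans (mul_le_mul_of_nonneg_right (hZc.trans ?_) (WW_pos _).le))
  have h5 : (η / 2 - ε) * Real.log X ≤ (η / 2 - ε') * Real.log X :=
    mul_le_mul_of_nonneg_right (by linarith) h2
  exact mul_le_mul_of_nonneg_right h5 h3

end Pool.Agent.H50.TL
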