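import Pool.Agent.H50.RC.Core

set_option autoImplicit false
set_option linter.unusedSectionVars false

/-! # The covering theorem with alive colours, counting form -/

namespace Pool.Agent.H50.TL

open Finset Pool.Agent.H50.SC Pool.Agent.H50.RC

variable {n : ℕ} {κ : Type} [Fintype κ] [DecidableEq κ]
variable {p g : Fin n → ℝ} {h : Finset (Fin n) → ℝ} {z K : ℝ} {w w' : Finset κ → ℝ} {β : ℝ}
variable {Ω : Type} [Fintype Ω] {pr : Ω → ℝ} {B : Ω → Finset κ}

lemma red_small (Q : ℝ) (M : ℕ)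
    (hM : ∀ D : Col n κ, yT p h Q D ≠ 0 → (cs D).card ≤ M) (k : κ) (D : Col n κ)
    (h0 : red g (yT p h Q) k D ≠ 0) : (cs D).card ≤ M := by
  unfold red at h0
  obtain ⟨D', hD', hne⟩ := Finset.exists_ne_zero_of_sum_ne_zero h0
  rw [Finset.mem_filter] at hD'
  have h1 := hM D' (left_ne_zero_of_mul hne)
  have h2 := Finset.card_le_card (cs_er_subset k D')
  rw [hD'.2] at h2
  omega

/-- lower bound of the second moment -/
theorem lower_w2 (H : Prof p g h z K) (hw' : Wt w' β) (A : Al pr B w) (Q δ : ℝ) (M : ℕ)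
    (hag : ∀ K : Finset κ, K.card ≤ M → w K = w' K)
    (hM : ∀ D : Col n κ, yT p h Q D ≠ 0 → (cs D).card ≤ M)
    (hug : ∀ i, (Fintype.card κ : ℝ) * g i ≤ 1)
    (hδ : ∀ D : Col n κ, qq p D ≤ Q → 2 * ∑ i with D i ≠ none, g i ≤ δ)
    (hug4 : (Fintype.card κ : ℝ) * δ ≤ 1 / 4) (hQ0 : 0 < Q)
    (hT8 : Tw p g h w' (Q / z) ≤ 1 / 8 * Zw g h w') :
    3 / 4 * Zw g h w' ≤ ∑ ω, pr ω * EE g (fun x => (VV g (yB p h Q (B ω)) x) ^ 2) := by
  have hw : ∀ i (c : Option κ), 0 ≤ wt (g i) c := fun i c => wt_nonneg (H.g0 i).le (hug i) c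
  have h1 : ∀ ω, ∑ D : Col n κ, (if cs D ⊆ B ω then
      (if qq p D ≤ Q then 7 / 8 * ((yy h D) ^ 2 * nu g D) else 0) else 0) ≤
      EE g (fun x => (VV g (yB p h Q (B ω)) x) ^ 2) := by
    intro ω
    have h1 := tensor_lower (κ := κ) g
      (fun i c => nu1 (g i) c * nu1 (1 - (Fintype.card κ : ℝ) * g i) c) hw
      (by
        intro i c
        cases c with
        | none => simp [nu1]
        | some k =>
          simp only [nu1]
          exact mul_nonneg (H.g0 i).le (by linarith [hug i]))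
      (fun i Y => local_lower (g i) (H.g0 i).le Y) (yB p h Q (B ω))
    refine le_trans ?_ h1
    refine Finset.sum_le_sum fun D _ => ?_
    unfold yB yT
    split_ifs with hB hD
    · rw [Finset.prod_mul_distrib]
      have e1 : ∏ i, nu1 (1 - (Fintype.card κ : ℝ) * g i) (D i) =
          ∏ i ∈ supp D, (1 - (Fintype.card κ : ℝ) * g i) := prod_nu1 _ D
      rw [e1]
      have e2 : 7 / 8 ≤ ∏ i ∈ supp D, (1 - (Fintype.card κ : ℝ) * g i) := by
        refine le_trans ?_ (prod_ge_one_sub_sum (supp D) (fun i => (Fintype.card κ : ℝ) * g i)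
          (fun i => mul_nonneg (Nat.cast_nonneg _) (H.g0 i).le) hug)
        rw [← Finset.mul_sum]
        have e3 := hδ D hD
        have e4 : ∑ i ∈ supp D, g i ≤ δ / 2 := by
          unfold supp
          linarith
        have e5 : (Fintype.card κ : ℝ) * ∑ i ∈ supp D, g i ≤ (Fintype.card κ : ℝ) * (δ / 2) :=
          mul_le_mul_of_nonneg_left e4 (Nat.cast_nonneg _)
        nlinarith
      have e6 : 0 ≤ (yy h D) ^ 2 * nu g D := mul_nonneg (sq_nonneg _) (nu_nn H D)
      have e7 : ∏ i, nu1 (g i) (D i) = nu g D := rfl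
      rw [e7]
      nlinarith
    · simp
    · simp
  have h2 : ∑ ω, pr ω * ∑ D : Col n κ, (if cs D ⊆ B ω then
      (if qq p D ≤ Q then 7 / 8 * ((yy h D) ^ 2 * nu g D) else 0) else 0) ≤
      ∑ ω, pr ω * EE g (fun x => (VV g (yB p h Q (B ω)) x) ^ 2) :=
    Finset.sum_le_sum fun ω _ => mul_le_mul_of_nonneg_left (h1 ω) (A.pr0 ω)
  refine le_trans ?_ h2
  rw [avg_sum A]
  have h3 : Zw g h w' = ∑ D : Col n κ with qq p D ≤ Q, (yy h D) ^ 2 * nu g D * w' (cs D) +
      ∑ D : Col n κ with ¬ qq p D ≤ Q, (yy h D) ^ 2 * nu g D * w' (cs D) := by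
    unfold Zw
    rw [Finset.sum_filter_add_sum_filter_not]
  have h4 : ∑ D : Col n κ with ¬ qq p D ≤ Q, (yy h D) ^ 2 * nu g D * w' (cs D) ≤
      Tw p g h w' (Q / z) := by
    unfold Tw
    apply Finset.sum_le_sum_of_subset_of_nonneg
    · intro D hD
      rw [Finset.mem_filter] at hD ⊢
      refine ⟨hD.1, lt_of_le_of_lt ?_ (not_le.mp hD.2)⟩
      exact div_le_self hQ0.le H.z1.le
    · intro D _ _
      exact term_nonneg H hw' D
  have h5 := Zw_ge_one H hw'
  have h6 : ∑ D : Col n κ, (if qq p D ≤ Q then 7 / 8 * ((yy h D) ^ 2 * nu g D) else 0) *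
      w (cs D) = 7 / 8 * ∑ D : Col n κ with qq p D ≤ Q, (yy h D) ^ 2 * nu g D * w' (cs D) := by
    rw [Finset.sum_filter, Finset.mul_sum]
    refine Finset.sum_congr rfl fun D _ => ?_
    split_ifs with hD
    · by_cases hy : yy h D = 0
      · rw [hy]; ring
      · have h7 : yT p h Q D ≠ 0 := by
          unfold yT
          rw [if_pos hD]
          exact hy
        rw [hag _ (hM D h7)]
        ring
    · ring
  rw [h6]
  linarith

/-- upper bound of the sieve majorant part -/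
theorem upper_w2 (H : Prof p g h z K) (hw' : Wt w' β) (A : Al pr B w) (Q δ t : ℝ) (J : ℕ) (M : ℕ)
    (hag : ∀ K : Finset κ, K.card ≤ M → w K = w' K)
    (hM : ∀ D : Col n κ, yT p h Q D ≠ 0 → (cs D).card ≤ M)
    (hJ : Even J) (ht : 0 < t)
    (htg : ∀ i, 3 * t * g i ≤ 1)
    (hug : ∀ i, (Fintype.card κ : ℝ) * g i ≤ 1) (hQ0 : 0 < Q)
    (hδ : ∀ D : Col n κ, qq p D ≤ Q → 2 * ∑ i with D i ≠ none, g i ≤ δ) (k : κ) :
    ∑ ω, pr ω * (if k ∈ B ω then EE g (fun x => (VV g (yB p h Q (B ω)) x) ^ 2 * SS J k x) else 0) ≤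
      δ ^ 2 * Zw g h w' + Tw p g h w' (Q / z) +
        (1 / t) ^ J * (Real.exp ((2 + 6 * t) * ∑ i, g i) * Zw g h w') := by
  have hw : ∀ i (c : Option κ), 0 ≤ wt (g i) c := fun i c => wt_nonneg (H.g0 i).le (hug i) c
  have hbet : ∀ D : Col n κ, 0 ≤ ∏ i, bet (g i) t k (D i) := by
    intro D
    apply Finset.prod_nonneg
    intro i _
    cases D i with
    | none =>
      simp only [bet]
      have := (H.g0 i).le
      positivity
    | some l =>
      simp only [bet]
      have := (H.g0 i).le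
      split_ifs
      · positivity
      · exact this
  have hper : ∀ ω, (if k ∈ B ω then
      EE g (fun x => (VV g (yB p h Q (B ω)) x) ^ 2 * SS J k x) else 0) ≤
      ∑ D : Col n κ, (if cs D ⊆ B ω then nu g D * (red g (yT p h Q) k D) ^ 2 +
        (1 / t) ^ J * ((∏ i, bet (g i) t k (D i)) * (yT p h Q D) ^ 2) else 0) := by
    intro ω
    have hnn : 0 ≤ ∑ D : Col n κ, (if cs D ⊆ B ω then nu g D * (red g (yT p h Q) k D) ^ 2 +
        (1 / t) ^ J * ((∏ i, bet (g i) t k (D i)) * (yT p h Q D) ^ 2) else 0) := by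
      refine Finset.sum_nonneg fun D _ => ?_
      split_ifs
      · have h1 := nu_nn H D
        have h2 := hbet D
        positivity
      · exact le_rfl
    split_ifs with hk
    swap
    · exact hnn
    have h1 : EE g (fun x => (VV g (yB p h Q (B ω)) x) ^ 2 * SS J k x) ≤
        EE g (fun x => (if ∀ i, x i ≠ some k then 1 else 0) *
          (VV g (yB p h Q (B ω)) x) ^ 2 +
          (1 / t) ^ J * ((∏ i, (if x i = some k then 1 + t else 1)) *
            (VV g (yB p h Q (B ω)) x) ^ 2)) := by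
      apply EE_mono hw
      intro x
      have := mul_le_mul_of_nonneg_left (SS_upper J hJ t ht k x)
        (sq_nonneg (VV g (yB p h Q (B ω)) x))
      refine this.trans (le_of_eq ?_)
      ring
    refine h1.trans ?_
    rw [EE_add, EE_smul]
    have h2 : EE g (fun x => (if ∀ i, x i ≠ some k then (1:ℝ) else 0) *
        (VV g (yB p h Q (B ω)) x) ^ 2) ≤
        ∑ D : Col n κ, (if cs D ⊆ B ω then nu g D * (red g (yT p h Q) k D) ^ 2 else 0) := by
      refine (rough_bound g (fun i => (H.g0 i).le) hw _ k).trans (le_of_eq ?_)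
      refine Finset.sum_congr rfl fun D _ => ?_
      rw [red_yB p g h Q (B ω) k hk D]
      split_ifs <;> simp
    have h3 : EE g (fun x => (∏ i, (if x i = some k then 1 + t else 1)) *
        (VV g (yB p h Q (B ω)) x) ^ 2) ≤
        ∑ D : Col n κ, (if cs D ⊆ B ω then (∏ i, bet (g i) t k (D i)) *
          (yT p h Q D) ^ 2 else 0) := by
      have h4 := tensor_upper (κ := κ) g (fun _ c => if c = some k then 1 + t else 1)
        (fun i c => bet (g i) t k c) hw
        (by intro i c; split_ifs <;> linarith)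
        (by
          intro i c
          cases c with
          | none =>
            simp only [bet]
            have := (H.g0 i).le
            positivity
          | some l =>
            simp only [bet]
            have := (H.g0 i).le
            split_ifs
            · positivity
            · exact this)
        (fun i Y => local_wt (g i) t (H.g0 i).le ht.le (htg i) k Y) (yB p h Q (B ω))
      refine h4.trans ?_
      apply Finset.sum_le_sum
      intro D _
      have hb := hbet D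
      unfold yB
      split_ifs
      · exact le_rfl
      · simp
    have h5 : (0:ℝ) ≤ (1 / t) ^ J := by positivity
    have h6 := mul_le_mul_of_nonneg_left h3 h5
    refine (add_le_add h2 h6).trans (le_of_eq ?_)
    rw [Finset.mul_sum, ← Finset.sum_add_distrib]
    refine Finset.sum_congr rfl fun D _ => ?_
    split_ifs <;> ring
  have h2 := Finset.sum_le_sum fun ω (_ : ω ∈ (univ : Finset Ω)) =>
    mul_le_mul_of_nonneg_left (hper ω) (A.pr0 ω)
  refine h2.trans ?_
  rw [avg_sum A]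
  have h3 : ∑ D : Col n κ, (nu g D * (red g (yT p h Q) k D) ^ 2 +
        (1 / t) ^ J * ((∏ i, bet (g i) t k (D i)) * (yT p h Q D) ^ 2)) * w (cs D) =
      ∑ D : Col n κ, nu g D * (red g (yT p h Q) k D) ^ 2 * w' (cs D) +
      (1 / t) ^ J * ∑ D : Col n κ, (∏ i, bet (g i) t k (D i)) * (yT p h Q D) ^ 2 * w' (cs D) := by
    rw [Finset.mul_sum, ← Finset.sum_add_distrib]
    refine Finset.sum_congr rfl fun D _ => ?_
    by_cases hc : (cs D).card ≤ M
    · rw [hag _ hc]
      ring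
    · have r1 : red g (yT p h Q) k D = 0 := by
        by_contra h0
        exact hc (red_small Q M hM k D h0)
      have r2 : yT p h Q D = 0 := by
        by_contra h0
        exact hc (hM D h0)
      rw [r1, r2]
      ring
  rw [h3]
  have h4 := red_w H hw' Q δ hQ0 hδ k
  have h5 := bet_w H hw' t ht.le k
  have h6 : (0:ℝ) ≤ (1 / t) ^ J := by positivity
  have h8 : ∑ D : Col n κ, (∏ i, bet (g i) t k (D i)) * (yT p h Q D) ^ 2 * w' (cs D) ≤
      ∑ D : Col n κ, (∏ i, bet (g i) t k (D i)) * (yy h D) ^ 2 * w' (cs D) := by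
    refine Finset.sum_le_sum fun D _ => ?_
    apply mul_le_mul_of_nonneg_right _ (hw'.w0 _)
    apply mul_le_mul_of_nonneg_left _ (hbet D)
    unfold yT
    split_ifs
    · exact le_rfl
    · have := sq_nonneg (yy h D)
      simpa using this
  have h7 := mul_le_mul_of_nonneg_left (h8.trans h5) h6
  linarith

/-- the covering theorem, counting form -/
theorem core_cnt {α : Type} [DecidableEq α] (𝒜 : Finset α) (col : α → Col n κ)
    (alive : α → Finset κ)
    (H : Prof p g h z K) (hw' : Wt w' β) (A : Al pr B w)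
    (Q δ t τ N ρ Err CV S : ℝ) (J M : ℕ) (hJ : Even J) (ht : 0 < t) (hN : 0 < N) (hρ : 0 ≤ ρ)
    (hErr : 0 ≤ Err) (hτ0 : 0 < τ) (hτ1 : τ ≤ 1)
    (hag : ∀ K : Finset κ, K.card ≤ M → w K = w' K)
    (hQz : 1 ≤ Q)
    (hpz : ∀ i, p i ≤ z) (hg1 : ∀ i, g i ≤ 1) (htg : ∀ i, 3 * t * g i ≤ 1)
    (hug : ∀ i, (Fintype.card κ : ℝ) * g i ≤ 1)
    (hMg : ∀ i, ((2 * M + 1 : ℕ) : ℝ) * g i ≤ 1)
    (hδ : ∀ D : Col n κ, qq p D ≤ Q → 2 * ∑ i with D i ≠ none, g i ≤ δ)
    (hug4 : (Fintype.card κ : ℝ) * δ ≤ 1 / 4)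
    (hM : ∀ D : Col n κ, yT p h Q D ≠ 0 → (cs D).card ≤ M)
    (htail : (Fintype.card κ + 1 : ℝ) * (δ ^ 2 + Real.exp (τ / Real.log z *
      ((Fintype.card κ : ℝ) * β * (1 + τ) * K - Real.log (Q / z)))) ≤ 1 / 8)
    (hmom : (Fintype.card κ : ℝ) * (1 / t) ^ J * Real.exp ((2 + 6 * t) * ∑ i, g i) ≤ 1 / 8)
    (hCV : ∑ D : Col n κ with qq p D ≤ Q, (2 : ℝ) ^ (univ.filter (fun i => D i ≠ none)).card ≤ CV)
    (hcnt : ∀ (D : Col n κ) (L : Finset κ), qq p D ≤ Q * Q * z ^ J → L.card ≤ M + M + 1 →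
      |((𝒜.filter (fun a => (∀ i, D i ≠ none → col a i = D i) ∧ L ⊆ alive a)).card : ℝ) -
        N * (nu g D * w L)| ≤ ρ * (N * nu g D) + Err)
    (hfin : ρ * N * (((Fintype.card κ : ℝ) + 1) ^ (2 * M + 1) *
        Real.exp (34 * ((2 * M + 1 : ℕ) * ∑ i, g i))) +
        Err * (CV * CV * (1 + Fintype.card κ * (n + 1) ^ J)) ≤ 3 * N / 8)
    (hS : ∀ a ∈ 𝒜, (VV g (yB p h Q (alive a)) (col a)) ^ 2 ≤ S) :
    N / 8 ≤ S * ((𝒜.filter (fun a => ∀ k ∈ alive a, ∃ i, col a i = some k)).card : ℝ) := by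
  set u : ℝ := (Fintype.card κ : ℝ) with hu
  have hu0 : 0 ≤ u := Nat.cast_nonneg _
  have hQ0 : 0 < Q := by linarith
  have hz0 : 0 < z := by linarith [H.z1]
  have hwt : ∀ i (c : Option κ), 0 ≤ wt (g i) c := fun i c => wt_nonneg (H.g0 i).le (hug i) c
  have hg0 : ∀ i, 0 ≤ g i := fun i => (H.g0 i).le
  set E : ℝ := Real.exp (τ / Real.log z * (u * β * (1 + τ) * K - Real.log (Q / z))) with hE
  set Z : ℝ := Zw g h w' with hZ
  have hZ1 : 1 ≤ Z := Zw_ge_one H hw'
  have hE0 : 0 < E := Real.exp_pos _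
  have hp1 : ∀ i, 1 ≤ p i := fun i => (H.p1 i).le
  have hT : Tw p g h w' (Q / z) ≤ E * Z := tail_w H hw' τ hτ0 hτ1 (Q / z) (by positivity)
  have hE8 : E ≤ 1 / 8 := by
    have : δ ^ 2 + E ≤ (u + 1) * (δ ^ 2 + E) := by nlinarith [sq_nonneg δ]
    nlinarith [sq_nonneg δ]
  have hT8 : Tw p g h w' (Q / z) ≤ 1 / 8 * Z := by nlinarith
  set F : Finset κ → Col n κ → ℝ := fun B x =>
    VV g (yB p h Q B) x * VV g (yB p h Q B) x * UU J B x with hF
  have hlow : 3 / 4 * Z ≤ ∑ ω, pr ω * EE g (fun x => (VV g (yB p h Q (B ω)) x) ^ 2) :=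
    lower_w2 H hw' A Q δ M hag hM hug hδ hug4 hQ0 hT8
  have hup : ∀ k, ∑ ω, pr ω * (if k ∈ B ω then
      EE g (fun x => (VV g (yB p h Q (B ω)) x) ^ 2 * SS J k x) else 0) ≤
      δ ^ 2 * Z + E * Z + (1 / t) ^ J * (Real.exp ((2 + 6 * t) * ∑ i, g i) * Z) := fun k =>
    (upper_w2 H hw' A Q δ t J M hag hM hJ ht htg hug hQ0 hδ k).trans (by linarith)
  have hEF : Z / 2 ≤ ∑ ω, pr ω * EE g (F (B ω)) := by
    have e0 : ∀ ω, EE g (F (B ω)) = EE g (fun x => (VV g (yB p h Q (B ω)) x) ^ 2) -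
        ∑ k, (if k ∈ B ω then
          EE g (fun x => (VV g (yB p h Q (B ω)) x) ^ 2 * SS J k x) else 0) := by
      intro ω
      have e1 : ∀ k, (if k ∈ B ω then
          EE g (fun x => (VV g (yB p h Q (B ω)) x) ^ 2 * SS J k x) else 0) =
          EE g (fun x => (VV g (yB p h Q (B ω)) x) ^ 2 * (if k ∈ B ω then SS J k x else 0)) := by
        intro k
        split_ifs
        · rfl
        · have : (fun x : Col n κ => (VV g (yB p h Q (B ω)) x) ^ 2 * (0:ℝ)) =
              fun x => 0 * (VV g (yB p h Q (B ω)) x) ^ 2 := by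
            funext x; ring
          rw [this, EE_smul, zero_mul]
      simp_rw [e1]
      rw [← EE_sum, ← EE_sub]
      congr 1
      funext x
      simp only [hF, UU]
      rw [← Finset.mul_sum]
      ring
    simp_rw [e0, mul_sub]
    rw [Finset.sum_sub_distrib]
    have e2 : ∑ ω, pr ω * ∑ k, (if k ∈ B ω then
        EE g (fun x => (VV g (yB p h Q (B ω)) x) ^ 2 * SS J k x) else 0) ≤
        u * (δ ^ 2 * Z + E * Z + (1 / t) ^ J * (Real.exp ((2 + 6 * t) * ∑ i, g i) * Z)) := by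
      have e8 : ∑ ω, pr ω * ∑ k, (if k ∈ B ω then
          EE g (fun x => (VV g (yB p h Q (B ω)) x) ^ 2 * SS J k x) else 0) =
          ∑ k, ∑ ω, pr ω * (if k ∈ B ω then
            EE g (fun x => (VV g (yB p h Q (B ω)) x) ^ 2 * SS J k x) else 0) := by
        rw [Finset.sum_comm]
        refine Finset.sum_congr rfl fun ω _ => ?_
        rw [Finset.mul_sum]
      rw [e8]
      have e9 := Finset.sum_le_card_nsmul (univ : Finset κ) (fun k => ∑ ω, pr ω * (if k ∈ B ω then
        EE g (fun x => (VV g (yB p h Q (B ω)) x) ^ 2 * SS J k x) else 0))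
        (δ ^ 2 * Z + E * Z + (1 / t) ^ J * (Real.exp ((2 + 6 * t) * ∑ i, g i) * Z))
        (fun k _ => hup k)
      rw [Finset.card_univ, nsmul_eq_mul] at e9
      exact e9
    have e3 : u * (δ ^ 2 * Z + E * Z) ≤ 1 / 8 * Z := by
      have : u * (δ ^ 2 + E) ≤ 1 / 8 := by nlinarith [sq_nonneg δ]
      nlinarith
    have e4 : u * ((1 / t) ^ J * (Real.exp ((2 + 6 * t) * ∑ i, g i) * Z)) ≤ 1 / 8 * Z := by
      nlinarith
    nlinarith
  -- representation
  have hR1 := Rep_V p g h z K H hg1 Q M hM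
  have hR2 := Rep_UU (κ := κ) p hp1 z hpz H.z1.le J
  have hR := Rep_mul hp1 (Rep_mul hp1 hR1 hR1) hR2
  have hCV0 : 0 ≤ ∑ D : Col n κ with qq p D ≤ Q,
      (2 : ℝ) ^ (univ.filter (fun i => D i ≠ none)).card :=
    Finset.sum_nonneg fun D _ => by positivity
  have hU0 : (0:ℝ) ≤ 1 + u * (n + 1) ^ J := by positivity
  have hR' : Rep p (Q * Q * z ^ J) (M + M + 1) (CV * CV * (1 + u * (n + 1) ^ J))
      (fun x => (∑ D : Col n κ with (cs D).card ≤ M, ph g x D) *
      (∑ D : Col n κ with (cs D).card ≤ M, ph g x D) *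
      (1 + ∑ k, ∏ i, (if x i = some k then (2 : ℝ) else 1))) F := by
    refine Rep_mono le_rfl le_rfl ?_ (fun x => le_rfl) hR
    exact mul_le_mul_of_nonneg_right (mul_le_mul hCV hCV hCV0 (hCV0.trans hCV)) hU0
  have htr := transfer_w 𝒜 col alive hwt A N ρ Err _ _ _ _ hN.le hρ hErr hcnt _
    (EE_Phi hg0 hwt M hMg) F hR'
  have hpos : N / 8 ≤ ∑ a ∈ 𝒜, F (alive a) (col a) := by
    have e1 := (abs_le.mp htr).1
    have e2 : N / 2 ≤ N * ∑ ω, pr ω * EE g (F (B ω)) := by nlinarith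
    linarith
  refine hpos.trans ?_
  have hSS0 : ∀ a l, 0 ≤ (if l ∈ alive a then SS J l (col a) else 0) := by
    intro a l
    split_ifs
    · refine le_trans ?_ (SS_lower J hJ l (col a))
      split_ifs <;> norm_num
    · exact le_rfl
  have hUU1 : ∀ a, UU J (alive a) (col a) ≤ 1 := by
    intro a
    unfold UU
    have := Finset.sum_nonneg fun l (_ : l ∈ (univ : Finset κ)) => hSS0 a l
    linarith
  have hV0 : ∀ a, 0 ≤ VV g (yB p h Q (alive a)) (col a) * VV g (yB p h Q (alive a)) (col a) :=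
    fun a => mul_self_nonneg _
  have hterm : ∀ a ∈ 𝒜, F (alive a) (col a) ≤
      if (∀ k ∈ alive a, ∃ i, col a i = some k) then S else 0 := by
    intro a ha
    split_ifs with hgood
    · have h1 := mul_le_mul_of_nonneg_left (hUU1 a) (hV0 a)
      have h2 := hS a ha
      calc F (alive a) (col a) ≤ VV g (yB p h Q (alive a)) (col a) *
            VV g (yB p h Q (alive a)) (col a) * 1 := h1
        _ = (VV g (yB p h Q (alive a)) (col a)) ^ 2 := by ring
        _ ≤ S := h2
    · push Not at hgood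
      obtain ⟨k, hk, hk2⟩ := hgood
      apply mul_nonpos_of_nonneg_of_nonpos (hV0 a)
      have h2 : (if k ∈ alive a then SS J k (col a) else 0) ≤
          ∑ l, (if l ∈ alive a then SS J l (col a) else 0) :=
        Finset.single_le_sum (f := fun l => if l ∈ alive a then SS J l (col a) else 0)
          (fun l _ => hSS0 a l) (Finset.mem_univ k)
      rw [if_pos hk] at h2
      have h3 := SS_lower J hJ k (col a)
      rw [if_pos hk2] at h3
      unfold UU
      linarith
  refine (Finset.sum_le_sum hterm).trans (le_of_eq ?_)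
  rw [← Finset.sum_filter, Finset.sum_const, nsmul_eq_mul, mul_comm]

end Pool.Agent.H50.TL
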