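import Pool.Agent.H50.RC.Core

set_option autoImplicit false
set_option linter.unusedSectionVars false

/-! # A uniform bound of the weight -/

namespace Pool.Agent.H50.TL

open Finset Pool.Agent.H50.SC Pool.Agent.H50.RC

variable {n : ℕ} {κ : Type} [Fintype κ] [DecidableEq κ]

lemma psi_abs_le (g : Fin n → ℝ) (hg0 : ∀ i, 0 ≤ g i) (D x : Col n κ) :
    |psi g D x| ≤ ph g x D := by
  unfold psi ph
  rw [Finset.abs_prod]
  refine Finset.prod_le_prod (fun i _ => abs_nonneg _) fun i _ => ?_
  have hg := hg0 i
  cases D i with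
  | none => simp [psi1]
  | some k =>
    simp only [psi1]
    refine (abs_sub _ _).trans ?_
    rw [abs_of_nonneg hg]
    split_ifs <;> simp

/-- sum over the small patterns -/
lemma sum_ph_le (g : Fin n → ℝ) (hg0 : ∀ i, 0 ≤ g i) (x : Col n κ) (m : ℕ) :
    ∑ D : Col n κ with (supp D).card ≤ m, ph g x D ≤
      3 * (1 + ((univ.filter (fun i => x i ≠ none)).card : ℝ) +
        (Fintype.card κ : ℝ) * ∑ i, g i) ^ m := by
  classical
  set nx : ℝ := ((univ.filter (fun i => x i ≠ none)).card : ℝ) with hnx
  set u : ℝ := (Fintype.card κ : ℝ) with hu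
  set X : ℝ := 1 + nx + u * ∑ i, g i with hX
  have hnx0 : 0 ≤ nx := Nat.cast_nonneg _
  have hu0 : 0 ≤ u := Nat.cast_nonneg _
  have hG : 0 ≤ ∑ i, g i := Finset.sum_nonneg fun i _ => hg0 i
  have hX1 : 1 ≤ X := by
    have := mul_nonneg hu0 hG
    linarith
  have hX0 : 0 < X := by linarith
  set ψ : Fin n → Option κ → ℝ := fun i c => match c with
    | none => 1
    | some k => ((if x i = some k then 1 else 0) + g i) / X with hψ
  have hψ0 : ∀ i c, 0 ≤ ψ i c := by
    intro i c
    have := hg0 i
    cases c with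
    | none => simp [hψ]
    | some k =>
      simp only [hψ]
      split_ifs <;> positivity
  have h1 : ∑ D : Col n κ with (supp D).card ≤ m, ph g x D ≤
      ∑ D : Col n κ, X ^ m * ∏ i, ψ i (D i) := by
    refine le_trans (Finset.sum_le_sum fun D hD => ?_)
      (Finset.sum_le_sum_of_subset_of_nonneg (Finset.filter_subset _ _) fun D _ _ =>
        mul_nonneg (by positivity) (Finset.prod_nonneg fun i _ => hψ0 i _))
    have hc := (Finset.mem_filter.1 hD).2
    have e1 : ∏ i, ψ i (D i) = ph g x D * (1 / X) ^ (supp D).card := by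
      have e2 : (1 / X) ^ (supp D).card = ∏ i, (if D i = none then (1 : ℝ) else 1 / X) := by
        rw [prod_ite, prod_const_one, one_mul, prod_const]
        rfl
      rw [e2]
      unfold ph
      rw [← Finset.prod_mul_distrib]
      refine Finset.prod_congr rfl fun i _ => ?_
      cases D i with
      | none => simp [hψ]
      | some k =>
        simp only [hψ, reduceCtorEq, if_false]
        ring
    rw [e1]
    have h2 := ph_nonneg g hg0 x D
    have h3 : 1 ≤ X ^ m * (1 / X) ^ (supp D).card := by
      rw [one_div, inv_pow, ← div_eq_mul_inv, one_le_div (by positivity)]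
      exact pow_le_pow_right₀ hX1 hc
    calc ph g x D = ph g x D * 1 := (mul_one _).symm
      _ ≤ ph g x D * (X ^ m * (1 / X) ^ (supp D).card) := mul_le_mul_of_nonneg_left h3 h2
      _ = _ := by ring
  refine h1.trans ?_
  rw [← Finset.mul_sum]
  have h2 : ∑ D : Col n κ, ∏ i, ψ i (D i) ≤ 3 := by
    have e1 : ∑ D : Col n κ, ∏ i, ψ i (D i) = ∏ i, ∑ c, ψ i c := by
      rw [Finset.prod_univ_sum, Fintype.piFinset_univ]
    rw [e1]
    have e2 : ∀ i, ∑ c, ψ i c = 1 + ((if x i ≠ none then 1 else 0) + u * g i) / X := by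
      intro i
      rw [Fintype.sum_option]
      simp only [hψ]
      rw [← Finset.sum_div, Finset.sum_add_distrib, Finset.sum_const, Finset.card_univ,
        nsmul_eq_mul]
      congr 3
      cases hx : x i with
      | none => simp
      | some k =>
        rw [Finset.sum_eq_single k]
        · simp
        · intro b _ hb
          rw [if_neg]
          intro e
          exact hb (Option.some.inj e).symm
        · intro h
          exact absurd (Finset.mem_univ k) h
    have e3 : ∏ i, ∑ c, ψ i c ≤ Real.exp (∑ i, ((if x i ≠ none then 1 else 0) + u * g i) / X) := by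
      rw [Real.exp_sum]
      refine Finset.prod_le_prod (fun i _ => Finset.sum_nonneg fun c _ => hψ0 i c) fun i _ => ?_
      rw [e2 i, add_comm]
      exact Real.add_one_le_exp _
    refine e3.trans ?_
    have e4 : ∑ i, ((if x i ≠ none then (1:ℝ) else 0) + u * g i) / X ≤ 1 := by
      rw [← Finset.sum_div, div_le_one hX0, Finset.sum_add_distrib, ← Finset.mul_sum,
        Finset.sum_ite, Finset.sum_const_zero, add_zero, Finset.sum_const, nsmul_eq_mul, mul_one]
      rw [hX]
      linarith
    calc Real.exp (∑ i, ((if x i ≠ none then (1:ℝ) else 0) + u * g i) / X) ≤ Real.exp 1 :=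
          Real.exp_le_exp.2 e4
      _ ≤ 3 := Real.exp_one_lt_three.le
  have h3 := mul_le_mul_of_nonneg_left h2 (pow_nonneg hX0.le m)
  linarith

/-- bound of the weight -/
theorem VV_le {p g : Fin n → ℝ} {h : Finset (Fin n) → ℝ} {z K : ℝ} (H : Prof p g h z K)
    (Q : ℝ) (m : ℕ) (hm : ∀ D : Col n κ, qq p D ≤ Q → (supp D).card ≤ m) (B : Finset κ)
    (x : Col n κ) (X : ℝ) (hX : 1 + ((univ.filter (fun i => x i ≠ none)).card : ℝ) +
        (Fintype.card κ : ℝ) * ∑ i, g i ≤ X) :
    (VV g (yB p h Q B) x) ^ 2 ≤ (3 * X ^ m) ^ 2 := by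
  have hg0 : ∀ i, 0 ≤ g i := fun i => (H.g0 i).le
  have hG : 0 ≤ ∑ i, g i := Finset.sum_nonneg fun i _ => hg0 i
  have h1 : |VV g (yB p h Q B) x| ≤ 3 * X ^ m := by
    unfold VV
    refine (Finset.abs_sum_le_sum_abs _ _).trans ?_
    have e1 : ∀ D : Col n κ, |yB p h Q B D * psi g D x| ≤
        if (supp D).card ≤ m then ph g x D else 0 := by
      intro D
      rw [abs_mul]
      have e2 := psi_abs_le g hg0 D x
      have e3 := ph_nonneg g hg0 x D
      by_cases hq : qq p D ≤ Q
      · rw [if_pos (hm D hq)]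
        have e4 : |yB p h Q B D| ≤ 1 := by
          unfold yB yT
          split_ifs
          · exact yy_abs_le H.h0 H.h1 D
          · simp
        calc |yB p h Q B D| * |psi g D x| ≤ 1 * ph g x D :=
              mul_le_mul e4 e2 (abs_nonneg _) zero_le_one
          _ = _ := one_mul _
      · have e4 : yB p h Q B D = 0 := by
          unfold yB yT
          rw [if_neg hq]
          simp
        rw [e4, abs_zero, zero_mul]
        split_ifs
        · exact e3
        · exact le_rfl
    refine (Finset.sum_le_sum fun D _ => e1 D).trans ?_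
    rw [← Finset.sum_filter]
    refine (sum_ph_le g hg0 x m).trans ?_
    apply mul_le_mul_of_nonneg_left _ (by norm_num)
    apply pow_le_pow_left₀ _ hX
    have : (0:ℝ) ≤ ((univ.filter (fun i => x i ≠ none)).card : ℝ) := Nat.cast_nonneg _
    have h2 : (0:ℝ) ≤ (Fintype.card κ : ℝ) * ∑ i, g i := mul_nonneg (Nat.cast_nonneg _) hG
    linarith
  rw [← sq_abs]
  exact pow_le_pow_left₀ (abs_nonneg _) h1 2

end Pool.Agent.H50.TL
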