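import Pool.Agent.H50.RC.Cnt

set_option autoImplicit false
set_option linter.unusedSectionVars false

/-! # Truncated inclusion and exclusion for families of sets of colours -/

namespace Pool.Agent.H50.TL

open Finset Pool.Agent.H50.SC Pool.Agent.H50.RC

variable {m : ℕ} {κ : Type} [Fintype κ] [DecidableEq κ]

/-- the indices at which `xs` takes a value of the family -/
def hitsF (Lf : Fin m → Finset κ) (xs : Col m κ) : Finset (Fin m) :=
  univ.filter (fun j => ∃ k ∈ Lf j, xs j = some k)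

/-- patterns with values in the family -/
def AllF (Lf : Fin m → Finset κ) : Finset (Col m κ) :=
  Fintype.piFinset (fun j => Finset.insertNone (Lf j))

lemma mem_AllF {Lf : Fin m → Finset κ} {E : Col m κ} :
    E ∈ AllF Lf ↔ ∀ j k, E j = some k → k ∈ Lf j := by
  unfold AllF
  rw [Fintype.mem_piFinset]
  constructor
  · intro h j k hk
    have := h j
    rw [hk, Finset.some_mem_insertNone] at this
    exact this
  · intro h j
    cases hE : E j with
    | none => exact Finset.none_mem_insertNone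
    | some k =>
      rw [Finset.some_mem_insertNone]
      exact h j k hE

/-- patterns with at most `J` entries -/
def PatF (J : ℕ) (Lf : Fin m → Finset κ) : Finset (Col m κ) :=
  (AllF Lf).filter (fun E => (supp E).card ≤ J)

/-- truncated inclusion exclusion -/
noncomputable def SBF (J : ℕ) (Lf : Fin m → Finset κ) (xs : Col m κ) : ℝ :=
  ∑ E ∈ PatF J Lf, (-1 : ℝ) ^ (supp E).card * ind E xs

lemma SBF_eq' (J : ℕ) (L : Fin m → Finset κ) (xs : Col m κ) :
    SBF J L xs = ∑ s ∈ (hitsF L xs).powerset, (if s.card ≤ J then (-1 : ℝ) ^ s.card else 0) := by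
  classical
  unfold SBF
  rw [← Finset.sum_filter]
  have e1 : ∑ E ∈ PatF J L, (-1 : ℝ) ^ (supp E).card * ind E xs =
      ∑ E ∈ (PatF J L).filter (fun E => ∀ i, E i ≠ none → xs i = E i),
        (-1 : ℝ) ^ (supp E).card := by
    rw [Finset.sum_filter]
    refine Finset.sum_congr rfl fun E _ => ?_
    unfold ind
    split_ifs <;> ring
  rw [e1]
  refine Finset.sum_bij' (fun E _ => supp E) (fun s _ => fun i => if i ∈ s then xs i else none)
    ?_ ?_ ?_ ?_ ?_
  · intro E hE
    rw [Finset.mem_filter, PatF, Finset.mem_filter, mem_AllF] at hE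
    obtain ⟨⟨hE1, hE2⟩, hE3⟩ := hE
    rw [Finset.mem_filter, Finset.mem_powerset]
    refine ⟨?_, hE2⟩
    intro i hi
    have hi' := mem_supp.1 hi
    obtain ⟨k, hk⟩ := Option.ne_none_iff_exists'.mp hi'
    refine Finset.mem_filter.2 ⟨mem_univ _, k, hE1 i k hk, ?_⟩
    rw [hE3 i hi', hk]
  · intro s hs
    rw [Finset.mem_filter, Finset.mem_powerset] at hs
    obtain ⟨hs1, hs2⟩ := hs
    have hsupp : supp (fun i => if i ∈ s then xs i else none : Col m κ) = s := by
      ext i
      rw [mem_supp]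
      constructor
      · intro h
        by_contra hi
        exact h (by rw [if_neg hi])
      · intro hi
        rw [if_pos hi]
        obtain ⟨k, _, hk⟩ := (Finset.mem_filter.1 (hs1 hi)).2
        rw [hk]
        simp
    rw [Finset.mem_filter, PatF, Finset.mem_filter, hsupp, mem_AllF]
    refine ⟨⟨?_, hs2⟩, ?_⟩
    · intro i k hi
      by_cases his : i ∈ s
      · rw [if_pos his] at hi
        obtain ⟨l, hl, hl'⟩ := (Finset.mem_filter.1 (hs1 his)).2
        rw [hl'] at hi
        exact Option.some.inj hi ▸ hl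
      · rw [if_neg his] at hi
        exact absurd hi (by simp)
    · intro i hi
      by_cases his : i ∈ s
      · simp only [if_pos his]
      · simp only [if_neg his] at hi
        exact absurd rfl hi
  · intro E hE
    rw [Finset.mem_filter, PatF, Finset.mem_filter] at hE
    obtain ⟨_, hE3⟩ := hE
    funext i
    by_cases hi : i ∈ supp E
    · rw [if_pos hi]
      exact hE3 i (mem_supp.1 hi)
    · rw [if_neg hi]
      have : ¬ E i ≠ none := fun h => hi (mem_supp.2 h)
      exact (not_not.1 this).symm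
  · intro s hs
    rw [Finset.mem_filter, Finset.mem_powerset] at hs
    obtain ⟨hs1, hs2⟩ := hs
    ext i
    rw [mem_supp]
    constructor
    · intro h
      by_contra hi
      exact h (by rw [if_neg hi])
    · intro hi
      rw [if_pos hi]
      obtain ⟨k, _, hk⟩ := (Finset.mem_filter.1 (hs1 hi)).2
      rw [hk]
      simp
  · intro E _
    rfl

lemma SBF_eq (J : ℕ) (L : Fin m → Finset κ) (xs : Col m κ) :
    SBF J L xs = ∑ r ∈ range (J + 1), (-1 : ℝ) ^ r * ((hitsF L xs).card.choose r : ℝ) := by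
  classical
  set T := hitsF L xs with hT
  rw [SBF_eq', ← hT, sum_powerset_apply_card (fun m => if m ≤ J then (-1 : ℝ) ^ m else 0)]
  have h2 : ∀ m, T.card < m → ((T.card.choose m : ℕ) : ℝ) = 0 := by
    intro m hm
    rw [Nat.choose_eq_zero_of_lt hm, Nat.cast_zero]
  have h3 : ∑ m ∈ range (T.card + 1), T.card.choose m • (if m ≤ J then (-1 : ℝ) ^ m else 0) =
      ∑ m ∈ range (T.card + 1 + (J + 1)), (T.card.choose m : ℝ) *
        (if m ≤ J then (-1 : ℝ) ^ m else 0) := by
    rw [← sum_subset (range_subset_range.2 (Nat.le_add_right (T.card + 1) (J + 1)))]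
    · refine sum_congr rfl fun m _ => ?_
      rw [nsmul_eq_mul]
    · intro m _ hm
      rw [mem_range, not_lt] at hm
      rw [h2 m (by omega), zero_mul]
  have h4 : ∑ m ∈ range (J + 1), (-1 : ℝ) ^ m * ((T.card.choose m : ℕ) : ℝ) =
      ∑ m ∈ range (T.card + 1 + (J + 1)), (T.card.choose m : ℝ) *
        (if m ≤ J then (-1 : ℝ) ^ m else 0) := by
    rw [← sum_subset (range_subset_range.2 (Nat.le_add_left (J + 1) (T.card + 1)))]
    · refine sum_congr rfl fun m hm => ?_
      rw [mem_range] at hm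
      rw [if_pos (by omega), mul_comm]
    · intro m _ hm
      rw [mem_range, not_lt] at hm
      rw [if_neg (by omega), mul_zero]
  rw [h3, h4]

/-- value of the truncated sum -/
lemma SBF_val (J : ℕ) (L : Fin m → Finset κ) (xs : Col m κ) :
    SBF J L xs = if (hitsF L xs).card = 0 then 1 else
      (-1 : ℝ) ^ J * (((hitsF L xs).card - 1).choose J : ℝ) := by
  rw [SBF_eq]
  split_ifs with h
  · rw [h, sum_range_succ', sum_eq_zero]
    · simp
    · intro m _
      simp
  · obtain ⟨N, hN⟩ : ∃ N, (hitsF L xs).card = N + 1 := ⟨(hitsF L xs).card - 1, by omega⟩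
    rw [hN]
    have h1 := Int.alternating_sum_range_choose_eq_choose (n := N) (m := J)
    have h2 : (((∑ i ∈ range (J + 1), ((-1 : ℤ) ^ i * ((N + 1).choose i : ℤ)) : ℤ)) : ℝ) =
        (((-1 : ℤ) ^ J * (N.choose J : ℤ) : ℤ) : ℝ) := by
      rw [h1]
    push_cast at h2
    rw [h2]
    simp

lemma hitsF_empty (L : Fin m → Finset κ) (xs : Col m κ) :
    (hitsF L xs).card = 0 ↔ ∀ j, ∀ k ∈ L j, xs j ≠ some k := by
  unfold hitsF
  rw [Finset.card_eq_zero, Finset.filter_eq_empty_iff]
  constructor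
  · intro h j k hk he
    exact h (mem_univ j) ⟨k, hk, he⟩
  · rintro h j _ ⟨k, hk, he⟩
    exact h j k hk he

lemma SBF_even (J : ℕ) (hJ : Even J) (L : Fin m → Finset κ) (xs : Col m κ) :
    (if ∀ j, ∀ k ∈ L j, xs j ≠ some k then (1 : ℝ) else 0) ≤ SBF J L xs := by
  rw [SBF_val]
  by_cases h : (hitsF L xs).card = 0
  · rw [if_pos h, if_pos ((hitsF_empty L xs).1 h)]
  · rw [if_neg h, if_neg (fun h' => h ((hitsF_empty L xs).2 h')), hJ.neg_one_pow, one_mul]
    exact Nat.cast_nonneg _

lemma SBF_odd (J : ℕ) (hJ : Odd J) (L : Fin m → Finset κ) (xs : Col m κ) :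
    SBF J L xs ≤ (if ∀ j, ∀ k ∈ L j, xs j ≠ some k then (1 : ℝ) else 0) := by
  rw [SBF_val]
  by_cases h : (hitsF L xs).card = 0
  · rw [if_pos h, if_pos ((hitsF_empty L xs).1 h)]
  · rw [if_neg h, if_neg (fun h' => h ((hitsF_empty L xs).2 h')), hJ.neg_one_pow, neg_one_mul]
    have : (0:ℝ) ≤ (((hitsF L xs).card - 1).choose J : ℝ) := Nat.cast_nonneg _
    linarith

/-- number of patterns -/
lemma card_PatF (J Mc : ℕ) (L : Fin m → Finset κ) (hL : ∀ j, (L j).card ≤ Mc) :
    ((PatF J L).card : ℝ) ≤ 3 * ((m : ℝ) * Mc + 1) ^ J := by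
  classical
  set X : ℝ := (m : ℝ) * Mc + 1 with hX
  have hmL : (0:ℝ) ≤ (m : ℝ) * Mc := by positivity
  have hX1 : 1 ≤ X := by linarith
  have hX0 : 0 < X := by linarith
  have h1 : (PatF J L).card • (1 : ℝ) ≤ ∑ E ∈ PatF J L, X ^ J * ∏ i,
      (if E i = none then (1 : ℝ) else 1 / X) := by
    refine Finset.card_nsmul_le_sum _ _ _ fun E hE => ?_
    rw [PatF, Finset.mem_filter] at hE
    have e1 : ∏ i, (if E i = none then (1 : ℝ) else 1 / X) = (1 / X) ^ (supp E).card := by
      rw [prod_ite, prod_const_one, one_mul, prod_const]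
      rfl
    rw [e1, one_div, inv_pow, ← div_eq_mul_inv, one_le_div (by positivity)]
    exact pow_le_pow_right₀ hX1 hE.2
  rw [nsmul_eq_mul, mul_one] at h1
  refine h1.trans ?_
  rw [← Finset.mul_sum]
  have h2 : ∑ E ∈ PatF J L, ∏ i, (if E i = none then (1 : ℝ) else 1 / X) ≤ 3 := by
    calc ∑ E ∈ PatF J L, ∏ i, (if E i = none then (1 : ℝ) else 1 / X)
        ≤ ∑ E ∈ AllF L, ∏ i, (if E i = none then (1 : ℝ) else 1 / X) :=
          Finset.sum_le_sum_of_subset_of_nonneg (Finset.filter_subset _ _) fun E _ _ =>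
            Finset.prod_nonneg fun i _ => by split_ifs <;> positivity
      _ = ∏ i : Fin m, ∑ b ∈ Finset.insertNone (L i), (if b = none then (1 : ℝ) else 1 / X) := by
          unfold AllF
          rw [Finset.prod_univ_sum]
      _ ≤ ∏ i : Fin m, Real.exp (Mc / X) := by
          refine Finset.prod_le_prod (fun i _ => Finset.sum_nonneg fun b _ => by
            split_ifs <;> positivity) fun i _ => ?_
          have e2 : ∑ b ∈ Finset.insertNone (L i), (if b = none then (1 : ℝ) else 1 / X) =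
              1 + (L i).card / X := by
            rw [Finset.sum_insertNone]
            simp
            ring
          rw [e2]
          have e3 : ((L i).card : ℝ) / X ≤ Mc / X :=
            div_le_div_of_nonneg_right (by exact_mod_cast hL i) hX0.le
          have := Real.add_one_le_exp ((Mc : ℝ) / X)
          linarith
      _ = Real.exp (m * (Mc / X)) := by
          rw [Finset.prod_const, Finset.card_univ, Fintype.card_fin, Real.exp_nat_mul]
      _ ≤ Real.exp 1 := by
          apply Real.exp_le_exp.2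
          rw [← mul_div_assoc, div_le_one hX0]
          linarith
      _ ≤ 3 := Real.exp_one_lt_three.le
  have h3 := mul_le_mul_of_nonneg_left h2 (pow_nonneg hX0.le J)
  linarith

lemma neg_nu (gs : Fin m → ℝ) (E : Col m κ) :
    (-1 : ℝ) ^ (supp E).card * nu gs E = ∏ j, nu1 (-(gs j)) (E j) := by
  unfold nu
  rw [prod_nu1, prod_nu1, Finset.prod_neg]

lemma sum_nu1 (g : ℝ) (L : Finset κ) :
    ∑ b ∈ Finset.insertNone L, nu1 g b = 1 + (L.card : ℝ) * g := by
  rw [Finset.sum_insertNone]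
  simp [nu1]

/-- the mean of the truncated sum -/
lemma mean_SBF (gs : Fin m → ℝ) (h0 : ∀ j, 0 ≤ gs j) (J Mc : ℕ) (L : Fin m → Finset κ)
    (hL : ∀ j, (L j).card ≤ Mc) (t : ℝ) (ht : 1 ≤ t) :
    |∑ E ∈ PatF J L, (-1 : ℝ) ^ (supp E).card * nu gs E - ∏ j, (1 - ((L j).card : ℝ) * gs j)| ≤
      (1 / t) ^ J * Real.exp (t * (Mc * ∑ j, gs j)) := by
  have ht0 : 0 < t := by linarith
  have e1 : ∏ j, (1 - ((L j).card : ℝ) * gs j) =
      ∑ E ∈ AllF L, (-1 : ℝ) ^ (supp E).card * nu gs E := by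
    have : ∀ E ∈ AllF L, (-1 : ℝ) ^ (supp E).card * nu gs E = ∏ j, nu1 (-(gs j)) (E j) :=
      fun E _ => neg_nu gs E
    rw [Finset.sum_congr rfl this]
    unfold AllF
    rw [← Finset.prod_univ_sum]
    refine Finset.prod_congr rfl fun j _ => ?_
    rw [sum_nu1]
    ring
  have e2 : ∑ E ∈ AllF L, (-1 : ℝ) ^ (supp E).card * nu gs E =
      ∑ E ∈ PatF J L, (-1 : ℝ) ^ (supp E).card * nu gs E +
      ∑ E ∈ (AllF L).filter (fun E => ¬ (supp E).card ≤ J),
        (-1 : ℝ) ^ (supp E).card * nu gs E := by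
    unfold PatF
    rw [Finset.sum_filter_add_sum_filter_not]
  rw [e1, e2]
  have hν : ∀ E : Col m κ, 0 ≤ nu gs E := fun E => by
    unfold nu
    rw [prod_nu1]
    exact Finset.prod_nonneg fun j _ => h0 j
  have e3 : |∑ E ∈ PatF J L, (-1 : ℝ) ^ (supp E).card * nu gs E -
      (∑ E ∈ PatF J L, (-1 : ℝ) ^ (supp E).card * nu gs E +
      ∑ E ∈ (AllF L).filter (fun E => ¬ (supp E).card ≤ J),
        (-1 : ℝ) ^ (supp E).card * nu gs E)| =
      |∑ E ∈ (AllF L).filter (fun E => ¬ (supp E).card ≤ J),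
        (-1 : ℝ) ^ (supp E).card * nu gs E| := by
    rw [sub_add_eq_sub_sub, sub_self, zero_sub, abs_neg]
  rw [e3]
  refine (Finset.abs_sum_le_sum_abs _ _).trans ?_
  calc ∑ E ∈ (AllF L).filter (fun E => ¬ (supp E).card ≤ J),
        |(-1 : ℝ) ^ (supp E).card * nu gs E|
      ≤ ∑ E ∈ AllF L, (1 / t) ^ J * (t ^ (supp E).card * nu gs E) := by
        refine le_trans (Finset.sum_le_sum fun E hE => ?_)
          (Finset.sum_le_sum_of_subset_of_nonneg (Finset.filter_subset _ _) fun E _ _ =>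
            mul_nonneg (by positivity) (mul_nonneg (by positivity) (hν E)))
        have hc := (Finset.mem_filter.1 hE).2
        rw [abs_mul, abs_pow, abs_neg, abs_one, one_pow, one_mul, abs_of_nonneg (hν E)]
        have h2 : 1 ≤ (1 / t) ^ J * t ^ (supp E).card := by
          have h3 : (1 / t) ^ J * t ^ J = 1 := by
            rw [← mul_pow, one_div_mul_cancel ht0.ne', one_pow]
          calc (1:ℝ) = (1 / t) ^ J * t ^ J := h3.symm
            _ ≤ _ := mul_le_mul_of_nonneg_left (pow_le_pow_right₀ ht (by omega)) (by positivity)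
        calc nu gs E = 1 * nu gs E := (one_mul _).symm
          _ ≤ ((1 / t) ^ J * t ^ (supp E).card) * nu gs E :=
            mul_le_mul_of_nonneg_right h2 (hν E)
          _ = _ := by ring
    _ = (1 / t) ^ J * ∑ E ∈ AllF L, ∏ j, nu1 (t * gs j) (E j) := by
        rw [Finset.mul_sum]
        refine Finset.sum_congr rfl fun E _ => ?_
        unfold nu
        rw [prod_nu1, prod_nu1, Finset.prod_mul_distrib, Finset.prod_const]
    _ = (1 / t) ^ J * ∏ j, (1 + ((L j).card : ℝ) * (t * gs j)) := by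
        congr 1
        unfold AllF
        rw [← Finset.prod_univ_sum]
        refine Finset.prod_congr rfl fun j _ => ?_
        rw [sum_nu1]
    _ ≤ (1 / t) ^ J * Real.exp (t * (Mc * ∑ j, gs j)) := by
        apply mul_le_mul_of_nonneg_left _ (by positivity)
        have e4 : t * (Mc * ∑ j, gs j) = ∑ j, (Mc : ℝ) * (t * gs j) := by
          rw [Finset.mul_sum, Finset.mul_sum]
          refine Finset.sum_congr rfl fun j _ => by ring
        rw [e4, Real.exp_sum]
        refine Finset.prod_le_prod (fun j _ => ?_) fun j _ => ?_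
        · have := h0 j
          positivity
        · have h5 : ((L j).card : ℝ) * (t * gs j) ≤ Mc * (t * gs j) := by
            apply mul_le_mul_of_nonneg_right (by exact_mod_cast hL j)
            have := h0 j
            positivity
          have := Real.add_one_le_exp ((Mc : ℝ) * (t * gs j))
          linarith

/-- counting with families -/
theorem count_fam {α : Type} [DecidableEq α] (𝒟 : Finset α)
    (scol : α → Col m κ) (gs : Fin m → ℝ)
    (h0 : ∀ j, 0 ≤ gs j) (V : ℝ) (hV : 0 ≤ V) (L : Fin m → Finset κ) (Mc : ℕ)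
    (hL : ∀ j, (L j).card ≤ Mc)
    (hc : ∀ E : Col m κ, (∀ j k, E j = some k → k ∈ L j) →
      |((𝒟.filter (fun a => ∀ i, E i ≠ none → scol a i = E i)).card : ℝ) - V * nu gs E| ≤ 1)
    (J : ℕ) (hJ : Even J) (t : ℝ) (ht : 1 ≤ t) :
    |((𝒟.filter (fun a => ∀ j, ∀ k ∈ L j, scol a j ≠ some k)).card : ℝ) -
        V * ∏ j, (1 - ((L j).card : ℝ) * gs j)| ≤
      (1 / t) ^ J * Real.exp (t * (Mc * ∑ j, gs j)) * V +
        3 * ((m : ℝ) * Mc + 1) ^ (J + 1) := by
  have ht0 : 0 < t := by linarith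
  have e1 : ((𝒟.filter (fun a => ∀ j, ∀ k ∈ L j, scol a j ≠ some k)).card : ℝ) =
      ∑ a ∈ 𝒟, (if ∀ j, ∀ k ∈ L j, scol a j ≠ some k then (1 : ℝ) else 0) := by
    rw [Finset.sum_ite, Finset.sum_const_zero, add_zero, Finset.sum_const, nsmul_eq_mul,
      mul_one]
  have e2 : ∀ J' : ℕ, |∑ a ∈ 𝒟, SBF J' L (scol a) -
      V * ∑ E ∈ PatF J' L, (-1 : ℝ) ^ (supp E).card * nu gs E| ≤
        3 * ((m : ℝ) * Mc + 1) ^ J' := by
    intro J'
    unfold SBF
    rw [Finset.sum_comm, Finset.mul_sum, ← Finset.sum_sub_distrib]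
    refine (Finset.abs_sum_le_sum_abs _ _).trans ?_
    refine le_trans ?_ (card_PatF J' Mc L hL)
    have e3 : ∀ E ∈ PatF J' L, |∑ a ∈ 𝒟, (-1 : ℝ) ^ (supp E).card * ind E (scol a) -
        V * ((-1 : ℝ) ^ (supp E).card * nu gs E)| ≤ 1 := by
      intro E hE
      rw [PatF, Finset.mem_filter, mem_AllF] at hE
      rw [← Finset.mul_sum]
      have e4 : ∑ a ∈ 𝒟, ind E (scol a) =
          ((𝒟.filter (fun a => ∀ i, E i ≠ none → scol a i = E i)).card : ℝ) := by
        unfold ind
        rw [Finset.sum_ite, Finset.sum_const_zero, add_zero, Finset.sum_const, nsmul_eq_mul,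
          mul_one]
      rw [e4]
      have e5 : (-1 : ℝ) ^ (supp E).card *
          ((𝒟.filter (fun a => ∀ i, E i ≠ none → scol a i = E i)).card : ℝ) -
          V * ((-1 : ℝ) ^ (supp E).card * nu gs E) =
          (-1 : ℝ) ^ (supp E).card * (((𝒟.filter (fun a =>
            ∀ i, E i ≠ none → scol a i = E i)).card : ℝ) - V * nu gs E) := by ring
      rw [e5, abs_mul, abs_pow, abs_neg, abs_one, one_pow, one_mul]
      exact hc E hE.1
    have e6 := Finset.sum_le_card_nsmul _ _ _ e3
    rw [nsmul_eq_mul, mul_one] at e6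
    exact e6
  have hX1 : (1:ℝ) ≤ (m : ℝ) * Mc + 1 := by
    have : (0:ℝ) ≤ (m : ℝ) * Mc := by positivity
    linarith
  have hpow : ((m : ℝ) * Mc + 1) ^ J ≤ ((m : ℝ) * Mc + 1) ^ (J + 1) :=
    pow_le_pow_right₀ hX1 (Nat.le_succ J)
  have hE0 := Real.exp_pos (t * (Mc * ∑ j, gs j))
  have htp : (1 / t) ^ (J + 1) ≤ (1 / t) ^ J := by
    apply pow_le_pow_of_le_one (by positivity) _ (Nat.le_succ J)
    rw [div_le_one ht0]
    exact ht
  rw [e1, abs_le]
  constructor
  · have f1 : ∑ a ∈ 𝒟, SBF (J + 1) L (scol a) ≤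
        ∑ a ∈ 𝒟, (if ∀ j, ∀ k ∈ L j, scol a j ≠ some k then (1 : ℝ) else 0) :=
      Finset.sum_le_sum fun a _ => SBF_odd (J + 1) hJ.add_one L _
    have f2 := (abs_le.1 (e2 (J + 1))).1
    have f3 := (abs_le.1 (mean_SBF gs h0 (J + 1) Mc L hL t ht)).1
    have f4 := mul_le_mul_of_nonneg_left f3 hV
    have f5 : (1 / t) ^ (J + 1) * Real.exp (t * (Mc * ∑ j, gs j)) * V ≤
        (1 / t) ^ J * Real.exp (t * (Mc * ∑ j, gs j)) * V :=
      mul_le_mul_of_nonneg_right (mul_le_mul_of_nonneg_right htp hE0.le) hV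
    nlinarith
  · have f1 : ∑ a ∈ 𝒟, (if ∀ j, ∀ k ∈ L j, scol a j ≠ some k then (1 : ℝ) else 0) ≤
        ∑ a ∈ 𝒟, SBF J L (scol a) :=
      Finset.sum_le_sum fun a _ => SBF_even J hJ L _
    have f2 := (abs_le.1 (e2 J)).2
    have f3 := (abs_le.1 (mean_SBF gs h0 J Mc L hL t ht)).2
    have f4 := mul_le_mul_of_nonneg_left f3 hV
    nlinarith

end Pool.Agent.H50.TL
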