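import Pool.Agent.H50.RC.Ev
import Pool.Agent.H50.TL.TL3
import Pool.Agent.H50.TL.TL4

set_option autoImplicit false
set_option linter.unusedSectionVars false

/-! # Counting the integers with prescribed patterns, small primes with collisions -/

namespace Pool.Agent.H50.TL

open Finset Pool.Agent.H50.SC Pool.Agent.H50.RC

open scoped Classical

variable {U : Finset ℕ}

/-- representative of a colour modulo `p` -/
noncomputable def rep (p : ℕ) (k : {k // k ∈ U}) : {k // k ∈ U} :=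
  @Function.invFun {k // k ∈ U} ℕ ⟨k⟩ (fun l => (l : ℕ) % p) ((k : ℕ) % p)

lemma rep_mod (p : ℕ) (k : {k // k ∈ U}) : ((rep p k : {k // k ∈ U}) : ℕ) % p = (k : ℕ) % p := by
  unfold rep
  exact @Function.invFun_eq {k // k ∈ U} ℕ ⟨k⟩ (fun l => (l : ℕ) % p) ((k : ℕ) % p) ⟨k, rfl⟩

lemma rep_eq_iff (p : ℕ) (k l : {k // k ∈ U}) :
    rep p k = rep p l ↔ (k : ℕ) % p = (l : ℕ) % p := by
  constructor
  · intro h
    rw [← rep_mod p k, ← rep_mod p l, h]
  · intro h
    unfold rep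
    rw [h]

lemma rep_rep (p : ℕ) (k : {k // k ∈ U}) : rep p (rep p k) = rep p k := by
  rw [rep_eq_iff, rep_mod]

lemma mod_iff (p : ℕ) (k l : ℕ) : k % p = l % p ↔ (p : ℤ) ∣ (l : ℤ) - k :=
  Nat.modEq_iff_dvd

/-- colouring by the representatives -/
noncomputable def scolr (U : Finset ℕ) (PP : Finset ℕ) (a : ℤ) : Col PP.card {k // k ∈ U} :=
  fun i => if h : ∃ k : {k // k ∈ U}, ((emb PP i : ℕ) : ℤ) ∣ a + ((k : ℕ) : ℤ) then
    some (rep (emb PP i) h.choose) else none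

lemma scolr_eq (PP : Finset ℕ) (a : ℤ) (i : Fin PP.card) (k : {k // k ∈ U}) :
    scolr U PP a i = some (rep (emb PP i) k) ↔ ((emb PP i : ℕ) : ℤ) ∣ a + ((k : ℕ) : ℤ) := by
  unfold scolr
  constructor
  · intro h
    split_ifs at h with h1
    have h2 := (rep_eq_iff _ _ _).1 (Option.some.inj h)
    rw [mod_iff] at h2
    have h3 := dvd_add h1.choose_spec h2
    have e : a + ((h1.choose : ℕ) : ℤ) + (((k : ℕ) : ℤ) - ((h1.choose : ℕ) : ℤ)) =
        a + ((k : ℕ) : ℤ) := by ring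
    rwa [e] at h3
  · intro h
    have h1 : ∃ k : {k // k ∈ U}, ((emb PP i : ℕ) : ℤ) ∣ a + ((k : ℕ) : ℤ) := ⟨k, h⟩
    rw [dif_pos h1]
    congr 1
    rw [rep_eq_iff, mod_iff]
    have h3 := dvd_sub h h1.choose_spec
    have e : a + ((k : ℕ) : ℤ) - (a + ((h1.choose : ℕ) : ℤ)) =
        ((k : ℕ) : ℤ) - ((h1.choose : ℕ) : ℤ) := by ring
    rwa [e] at h3

lemma rep_card (p : ℕ) (hp : 0 < p) :
    ((univ : Finset {k // k ∈ U}).image (rep p)).card ≤ p := by
  have h1 : ((univ : Finset {k // k ∈ U}).image (rep p)).card ≤ (Finset.range p).card := by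
    refine Finset.card_le_card_of_injOn (fun l => (l : ℕ) % p) ?_ ?_
    · intro l _
      exact Finset.mem_coe.2 (Finset.mem_range.2 (Nat.mod_lt _ hp))
    · intro l hl l' hl' he
      rw [Finset.mem_coe, Finset.mem_image] at hl hl'
      obtain ⟨k, _, rfl⟩ := hl
      obtain ⟨k', _, rfl⟩ := hl'
      simp only [rep_mod] at he
      rwa [rep_eq_iff]
  rwa [Finset.card_range] at h1

/-- an elementary event of the small primes is a residue class -/
theorem event_iffR {PP : Finset ℕ} (hP : ∀ p ∈ PP, p.Prime) (E : Col PP.card {k // k ∈ U})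
    (hE : ∀ i c, E i = some c → ∃ k, c = rep (emb PP i) k) :
    ∃ r : ℤ, ∀ a : ℤ, (∀ i, E i ≠ none → scolr U PP a i = E i) ↔
      ((qn PP E : ℕ) : ℤ) ∣ a - r := by
  have hcop : ∀ i ∈ supp E, ∀ j ∈ supp E, i ≠ j →
      IsCoprime ((emb PP i : ℕ) : ℤ) ((emb PP j : ℕ) : ℤ) := fun i _ j _ hij =>
    Nat.isCoprime_iff_coprime.mpr (emb_coprime hP hij)
  obtain ⟨r, hr⟩ := crt_int (supp E) (fun i => ((emb PP i : ℕ) : ℤ)) hcop
    (fun i => match E i with | none => 0 | some k => -((k : ℕ) : ℤ))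
  refine ⟨r, fun a => ?_⟩
  have key : ∀ i ∈ supp E, (scolr U PP a i = E i ↔ ((emb PP i : ℕ) : ℤ) ∣ a - r) := by
    intro i hi
    obtain ⟨c, hc⟩ := Option.ne_none_iff_exists'.mp (mem_supp.mp hi)
    obtain ⟨k, hk⟩ := hE i c hc
    have h1 := hr i hi
    rw [hc] at h1 ⊢
    simp only at h1
    have hcc : c = rep (emb PP i) c := by rw [hk, rep_rep]
    rw [hcc, scolr_eq]
    rw [hcc] at h1
    have h1' : ((emb PP i : ℕ) : ℤ) ∣ r + ((c : ℕ) : ℤ) := by
      rw [← hcc] at h1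
      have e : r - -((c : ℕ) : ℤ) = r + ((c : ℕ) : ℤ) := by ring
      rwa [e] at h1
    constructor
    · intro h2
      have := dvd_sub h2 h1'
      have e : a + ((c : ℕ) : ℤ) - (r + ((c : ℕ) : ℤ)) = a - r := by ring
      rwa [e] at this
    · intro h2
      have := dvd_add h2 h1'
      have e : a - r + (r + ((c : ℕ) : ℤ)) = a + ((c : ℕ) : ℤ) := by ring
      rwa [e] at this
  constructor
  · intro h
    have : ((qn PP E : ℕ) : ℤ) = ∏ i ∈ supp E, ((emb PP i : ℕ) : ℤ) := by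
      unfold qn; push_cast; rfl
    rw [this]
    apply Finset.prod_dvd_of_coprime
    · intro i hi j hj hij
      exact hcop i hi j hj hij
    · intro i hi
      exact (key i hi).mp (h i (mem_supp.mp hi))
  · intro h i hi
    have hi' : i ∈ supp E := mem_supp.mpr hi
    rw [key i hi']
    refine dvd_trans ?_ h
    have : (emb PP i : ℕ) ∣ qn PP E := Finset.dvd_prod_of_mem _ hi'
    exact_mod_cast this

theorem count_eventsR (h y H z : ℝ) (hy : 0 ≤ y) (hyH : y ≤ H) (hhH : h ≤ H) (hHz : H ≤ z)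
    (U : Finset ℕ)
    (hU : ∀ k ∈ U, 1 ≤ k ∧ (k : ℝ) ≤ h) (q₀ : ℕ) (hq₀ : 0 < q₀)
    (hq₀' : ∀ p : ℕ, p.Prime → p ∣ q₀ → (p : ℝ) ≤ y) (a₀ A B : ℤ) (hAB : A ≤ B)
    (D : Col (PR H z).card {k // k ∈ U}) (E : Col (PR y H).card {k // k ∈ U})
    (hE : ∀ i c, E i = some c → ∃ k, c = rep (emb (PR y H) i) k) :
    |((((Finset.Ioc A B).filter (fun a => (q₀ : ℤ) ∣ a - a₀)).filter (fun a =>
      (∀ i, D i ≠ none → colr (PR H z) rs a i = D i) ∧
      (∀ i, E i ≠ none → scolr U (PR y H) a i = E i))).card : ℝ) -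
      (((B : ℝ) - A) / q₀) * (nu (fun i => 1 / ((emb (PR H z) i : ℕ) : ℝ)) D *
        nu (fun i => 1 / ((emb (PR y H) i : ℕ) : ℝ)) E)| ≤ 1 := by
  have hH0 : 0 ≤ H := hy.trans hyH
  have hz0 : 0 ≤ z := hH0.trans hHz
  have hP1 : ∀ p ∈ PR H z, p.Prime := fun p hp => ((mem_PR hz0).1 hp).1
  have hP2 : ∀ p ∈ PR y H, p.Prime := fun p hp => ((mem_PR hH0).1 hp).1
  obtain ⟨r₁, hr₁⟩ := event_iff hP1 (hinj_of h H z hz0 hhH U hU) D
  obtain ⟨r₂, hr₂⟩ := event_iffR hP2 E hE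
  have c1 : Nat.Coprime (qn (PR y H) E) (qn (PR H z) D) := by
    apply qn_coprime_of (PR H z) hP1 D
    intro p hp hpd
    have h1 := qn_primeFactors hP2 E (p := p) (by
      rw [Nat.mem_primeFactors]
      refine ⟨hP1 p hp, hpd, ?_⟩
      exact (qn_squarefree hP2 E).ne_zero)
    have h2 := ((mem_PR hH0).1 h1).2.2
    have h3 := ((mem_PR hz0).1 hp).2.1
    linarith
  have c2 : Nat.Coprime q₀ (qn (PR H z) D) := by
    apply qn_coprime_of (PR H z) hP1 D
    intro p hp hpd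
    have h2 := hq₀' p (hP1 p hp) hpd
    have h3 := ((mem_PR hz0).1 hp).2.1
    linarith
  have c3 : Nat.Coprime q₀ (qn (PR y H) E) := by
    apply qn_coprime_of (PR y H) hP2 E
    intro p hp hpd
    have h2 := hq₀' p (hP2 p hp) hpd
    have h3 := ((mem_PR hH0).1 hp).2.1
    linarith
  obtain ⟨r₃, hr₃⟩ := crt2 ((qn (PR H z) D : ℕ) : ℤ) ((qn (PR y H) E : ℕ) : ℤ)
    (Nat.isCoprime_iff_coprime.mpr c1.symm) r₁ r₂
  obtain ⟨r₄, hr₄⟩ := crt2 (q₀ : ℤ) (((qn (PR H z) D : ℕ) : ℤ) * ((qn (PR y H) E : ℕ) : ℤ))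
    (IsCoprime.mul_right (Nat.isCoprime_iff_coprime.mpr c2) (Nat.isCoprime_iff_coprime.mpr c3))
    a₀ r₃
  have hset : ((Finset.Ioc A B).filter (fun a => (q₀ : ℤ) ∣ a - a₀)).filter (fun a =>
      (∀ i, D i ≠ none → colr (PR H z) rs a i = D i) ∧
      (∀ i, E i ≠ none → scolr U (PR y H) a i = E i)) =
      (Finset.Ioc A B).filter (fun a =>
        ((q₀ * (qn (PR H z) D * qn (PR y H) E) : ℕ) : ℤ) ∣ a - r₄) := by
    rw [Finset.filter_filter]
    apply Finset.filter_congr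
    intro a _
    rw [hr₁ a, hr₂ a, hr₃ a]
    push_cast
    exact hr₄ a
  rw [hset]
  have hm : 1 ≤ q₀ * (qn (PR H z) D * qn (PR y H) E) := by
    have h1 := (qn_squarefree hP1 D).ne_zero
    have h2 := (qn_squarefree hP2 E).ne_zero
    exact Nat.one_le_iff_ne_zero.2 (mul_ne_zero hq₀.ne' (mul_ne_zero h1 h2))
  have h5 := count_ap A B hAB (q₀ * (qn (PR H z) D * qn (PR y H) E)) hm r₄
  have h6 : ((B : ℝ) - A) / q₀ * (nu (fun i => 1 / ((emb (PR H z) i : ℕ) : ℝ)) D *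
        nu (fun i => 1 / ((emb (PR y H) i : ℕ) : ℝ)) E) =
      ((B : ℝ) - A) / ((q₀ * (qn (PR H z) D * qn (PR y H) E) : ℕ) : ℝ) := by
    rw [nu_eq, nu_eq]
    push_cast
    rw [div_mul_div_comm, div_mul_div_comm]
    simp
  rw [h6]
  exact h5

/-- the alive colours are those with no prime factor of `a + k` among the small primes -/
lemma mem_alive_iff (PP : Finset ℕ) (a : ℤ) (k : {k // k ∈ U}) :
    k ∈ aliveR (fun j => rep (emb PP j)) (scolr U PP a) ↔
      ∀ j, ¬ ((emb PP j : ℕ) : ℤ) ∣ a + ((k : ℕ) : ℤ) := by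
  unfold aliveR
  rw [Finset.mem_filter]
  constructor
  · rintro ⟨_, h⟩ j hj
    exact h j ((scolr_eq PP a j k).2 hj)
  · intro h
    exact ⟨mem_univ _, fun j hj => h j ((scolr_eq PP a j k).1 hj)⟩

/-- counting with alive colours -/
theorem count_aliveR (h y H z : ℝ) (hy : 0 < y) (hyH : y ≤ H) (hhH : h ≤ H) (hHz : H ≤ z)
    (U : Finset ℕ)
    (hU : ∀ k ∈ U, 1 ≤ k ∧ (k : ℝ) ≤ h) (q₀ : ℕ) (hq₀ : 0 < q₀)
    (hq₀' : ∀ p : ℕ, p.Prime → p ∣ q₀ → (p : ℝ) ≤ y) (a₀ A B : ℤ) (hAB : A ≤ B)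
    (D : Col (PR H z).card {k // k ∈ U}) (L : Finset {k // k ∈ U}) (Mc : ℕ) (hLM : L.card ≤ Mc)
    (J : ℕ) (hJ : Even J) (t : ℝ) (ht : 1 ≤ t) :
    |((((Finset.Ioc A B).filter (fun a => (q₀ : ℤ) ∣ a - a₀)).filter (fun a =>
      (∀ i, D i ≠ none → colr (PR H z) rs a i = D i) ∧
      L ⊆ aliveR (fun j => rep (emb (PR y H) j)) (scolr U (PR y H) a))).card : ℝ) -
      (((B : ℝ) - A) / q₀) * (nu (fun i => 1 / ((emb (PR H z) i : ℕ) : ℝ)) D *
        wR (fun j => rep (emb (PR y H) j)) (fun j => 1 / ((emb (PR y H) j : ℕ) : ℝ)) L)| ≤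
      (1 / t) ^ J * Real.exp (t * (Mc * ∑ j, 1 / ((emb (PR y H) j : ℕ) : ℝ))) *
        ((((B : ℝ) - A) / q₀) * nu (fun i => 1 / ((emb (PR H z) i : ℕ) : ℝ)) D) +
        3 * ((((PR y H).card : ℕ) : ℝ) * Mc + 1) ^ (J + 1) := by
  set 𝒟 : Finset ℤ := ((Finset.Ioc A B).filter (fun a => (q₀ : ℤ) ∣ a - a₀)).filter (fun a =>
      (∀ i, D i ≠ none → colr (PR H z) rs a i = D i)) with h𝒟
  have hN0 : 0 ≤ ((B : ℝ) - A) / q₀ := by
    apply div_nonneg _ (Nat.cast_nonneg _)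
    have : (A : ℝ) ≤ B := by exact_mod_cast hAB
    linarith
  have hν : 0 ≤ nu (fun i => 1 / ((emb (PR H z) i : ℕ) : ℝ)) D := by
    unfold nu
    rw [prod_nu1]
    exact Finset.prod_nonneg fun j _ => by positivity
  have h1 := count_fam 𝒟 (scolr U (PR y H)) (fun j => 1 / ((emb (PR y H) j : ℕ) : ℝ))
    (fun j => by positivity)
    ((((B : ℝ) - A) / q₀) * nu (fun i => 1 / ((emb (PR H z) i : ℕ) : ℝ)) D)
    (mul_nonneg hN0 hν) (fun j => L.image (rep (emb (PR y H) j))) Mc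
    (fun j => Finset.card_image_le.trans hLM)
    (fun E hE => by
      have h2 := count_eventsR h y H z hy.le hyH hhH hHz U hU q₀ hq₀ hq₀' a₀ A B hAB D E
        (fun i c hc => by
          obtain ⟨k, _, hk⟩ := Finset.mem_image.1 (hE i c hc)
          exact ⟨k, hk.symm⟩)
      rw [h𝒟, Finset.filter_filter]
      rw [← mul_assoc] at h2
      exact h2) J hJ t ht
  have e1 : 𝒟.filter (fun a => ∀ j, ∀ k ∈ L.image (rep (emb (PR y H) j)),
      scolr U (PR y H) a j ≠ some k) =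
      (((Finset.Ioc A B).filter (fun a => (q₀ : ℤ) ∣ a - a₀)).filter (fun a =>
      (∀ i, D i ≠ none → colr (PR H z) rs a i = D i) ∧
      L ⊆ aliveR (fun j => rep (emb (PR y H) j)) (scolr U (PR y H) a))) := by
    rw [h𝒟, Finset.filter_filter]
    apply Finset.filter_congr
    intro a _
    apply and_congr Iff.rfl
    constructor
    · intro hh k hk
      unfold aliveR
      rw [Finset.mem_filter]
      exact ⟨mem_univ _, fun j => hh j _ (Finset.mem_image_of_mem _ hk)⟩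
    · intro hh j c hc
      obtain ⟨k, hk, rfl⟩ := Finset.mem_image.1 hc
      have := hh hk
      unfold aliveR at this
      rw [Finset.mem_filter] at this
      exact this.2 j
  rw [e1] at h1
  unfold wR
  rw [← mul_assoc]
  exact h1

/-- the number of primes above `1` dividing a positive integer -/
lemma card_dvd_le (PP : Finset ℕ) (hP : ∀ p ∈ PP, p.Prime) (d : ℕ) (hd : 0 < d) :
    (2:ℝ) ^ (univ.filter (fun j : Fin PP.card => (emb PP j : ℕ) ∣ d)).card ≤ d := by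
  set S := univ.filter (fun j : Fin PP.card => (emb PP j : ℕ) ∣ d) with hS
  have h1 : ∏ j ∈ S, emb PP j ∣ d := by
    apply Finset.prod_dvd_of_isRelPrime
    · intro i _ j _ hij
      have := emb_coprime hP hij
      exact Nat.coprime_iff_isRelPrime.mp this
    · intro i hi
      exact (Finset.mem_filter.1 hi).2
  have h2 : (2:ℕ) ^ S.card ≤ ∏ j ∈ S, emb PP j := by
    rw [← Finset.prod_const]
    exact Finset.prod_le_prod' fun j _ => (hP _ (emb_mem PP j)).two_le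
  have h3 := Nat.le_of_dvd hd h1
  exact_mod_cast h2.trans h3

/-- the collisions -/
lemma coll_le (y H h : ℝ) (hy : 0 < y) (hyH : y ≤ H) (hh : 1 ≤ h) (U : Finset ℕ)
    (hU : ∀ k ∈ U, 1 ≤ k ∧ (k : ℝ) ≤ h) (L : Finset {k // k ∈ U}) (k : {k // k ∈ U})
    (hk : k ∉ L) :
    ∑ j with rep (emb (PR y H) j) k ∈ L.image (rep (emb (PR y H) j)),
      1 / ((emb (PR y H) j : ℕ) : ℝ) ≤ L.card * (2 * Real.log h) / y := by
  have hH0 : 0 ≤ H := hy.le.trans hyH
  have hP : ∀ p ∈ PR y H, p.Prime := fun p hp => ((mem_PR hH0).1 hp).1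
  set S : {k // k ∈ U} → Finset (Fin (PR y H).card) := fun l =>
    univ.filter (fun j => (emb (PR y H) j : ℕ) ∣ ((k : ℕ) - (l : ℕ) : ℤ).natAbs) with hS
  have hlogh : 0 ≤ Real.log h := Real.log_nonneg hh
  have hScard : ∀ l ∈ L, ((S l).card : ℝ) ≤ 2 * Real.log h := by
    intro l hl
    have hne : k ≠ l := fun e => hk (e ▸ hl)
    have hne' : (k : ℕ) ≠ (l : ℕ) := fun e => hne (Subtype.ext e)
    have hd : 0 < ((k : ℕ) - (l : ℕ) : ℤ).natAbs := by
      rw [Int.natAbs_pos]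
      omega
    have h1 := card_dvd_le (PR y H) hP _ hd
    have h2 : ((((k : ℕ) - (l : ℕ) : ℤ).natAbs : ℕ) : ℝ) ≤ h := by
      have hk1 := hU k k.2
      have hl1 := hU l l.2
      have : ((k : ℕ) - (l : ℕ) : ℤ).natAbs ≤ max (k : ℕ) (l : ℕ) := by omega
      calc ((((k : ℕ) - (l : ℕ) : ℤ).natAbs : ℕ) : ℝ) ≤ ((max (k : ℕ) (l : ℕ) : ℕ) : ℝ) := by
            exact_mod_cast this
        _ = max ((k : ℕ) : ℝ) ((l : ℕ) : ℝ) := by push_cast; rfl
        _ ≤ h := max_le hk1.2 hl1.2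
    have h3 := h1.trans h2
    have h4 : ((S l).card : ℝ) * Real.log 2 ≤ Real.log h := by
      rw [← Real.log_pow]
      exact Real.log_le_log (by positivity) h3
    have h5 : (1:ℝ) / 2 ≤ Real.log 2 := by
      have := Real.log_two_gt_d9
      linarith
    have h6 : (0:ℝ) ≤ (S l).card := Nat.cast_nonneg _
    nlinarith
  have hsub : (univ.filter (fun j => rep (emb (PR y H) j) k ∈ L.image (rep (emb (PR y H) j)))) ⊆
      L.biUnion S := by
    intro j hj
    rw [Finset.mem_filter, Finset.mem_image] at hj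
    obtain ⟨_, l, hl, he⟩ := hj
    rw [Finset.mem_biUnion]
    refine ⟨l, hl, ?_⟩
    rw [hS, Finset.mem_filter]
    refine ⟨mem_univ _, ?_⟩
    rw [rep_eq_iff, mod_iff] at he
    exact Int.natCast_dvd.1 he
  have hterm : ∀ j : Fin (PR y H).card, 1 / ((emb (PR y H) j : ℕ) : ℝ) ≤ 1 / y := by
    intro j
    exact one_div_le_one_div_of_le hy ((mem_PR hH0).1 (emb_mem (PR y H) j)).2.1.le
  calc ∑ j with rep (emb (PR y H) j) k ∈ L.image (rep (emb (PR y H) j)),
        1 / ((emb (PR y H) j : ℕ) : ℝ)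
      ≤ ∑ j ∈ L.biUnion S, 1 / y := by
        refine (Finset.sum_le_sum fun j _ => hterm j).trans ?_
        exact Finset.sum_le_sum_of_subset_of_nonneg hsub fun j _ _ => by positivity
    _ = (L.biUnion S).card * (1 / y) := by rw [Finset.sum_const, nsmul_eq_mul]
    _ ≤ (L.card * (2 * Real.log h)) * (1 / y) := by
        apply mul_le_mul_of_nonneg_right _ (by positivity)
        calc (((L.biUnion S).card : ℕ) : ℝ) ≤ ((∑ l ∈ L, (S l).card : ℕ) : ℝ) := by
              exact_mod_cast Finset.card_biUnion_le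
          _ = ∑ l ∈ L, ((S l).card : ℝ) := by push_cast; rfl
          _ ≤ ∑ l ∈ L, 2 * Real.log h := Finset.sum_le_sum hScard
          _ = _ := by rw [Finset.sum_const, nsmul_eq_mul]
    _ = _ := by ring

/-- the number of big primes that hit a colour -/
lemma hits_le (H z h X : ℝ) (hH : 1 < H) (hhH : h ≤ H) (hHz : H ≤ z) (U : Finset ℕ)
    (hU : ∀ k ∈ U, 1 ≤ k ∧ (k : ℝ) ≤ h) (a : ℤ) (ha : 0 ≤ a) (haX : ∀ k ∈ U, (a : ℝ) + k ≤ X) :
    ((univ.filter (fun i => colr (PR H z) (rs (U := U)) a i ≠ none)).card : ℝ) ≤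
      U.card * (2 * Real.log X) := by
  have hz0 : 0 ≤ z := by linarith
  have hP : ∀ p ∈ PR H z, p.Prime := fun p hp => ((mem_PR hz0).1 hp).1
  have hinj := hinj_of h H z hz0 hhH U hU
  set S : ℕ → Finset (Fin (PR H z).card) := fun k =>
    univ.filter (fun j => (emb (PR H z) j : ℕ) ∣ (a + k).natAbs) with hS
  have hScard : ∀ k ∈ U, ((S k).card : ℝ) ≤ 2 * Real.log X := by
    intro k hk
    have hk1 := (hU k hk).1
    have hd : 0 < (a + k).natAbs := by
      rw [Int.natAbs_pos]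
      omega
    have h1 := card_dvd_le (PR H z) hP _ hd
    have h2 : (((a + k).natAbs : ℕ) : ℝ) ≤ X := by
      obtain ⟨d, hd⟩ := Int.eq_ofNat_of_zero_le ha
      have e : (a + (k : ℤ)).natAbs = d + k := by omega
      rw [e]
      have h3 := haX k hk
      rw [hd] at h3
      push_cast at h3 ⊢
      exact h3
    have h3 := h1.trans h2
    have h4 : ((S k).card : ℝ) * Real.log 2 ≤ Real.log X := by
      rw [← Real.log_pow]
      exact Real.log_le_log (by positivity) h3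
    have h5 : (1:ℝ) / 2 ≤ Real.log 2 := by
      have := Real.log_two_gt_d9
      linarith
    have h6 : (0:ℝ) ≤ (S k).card := Nat.cast_nonneg _
    nlinarith
  have hsub : (univ.filter (fun i => colr (PR H z) (rs (U := U)) a i ≠ none)) ⊆
      U.biUnion S := by
    intro j hj
    rw [Finset.mem_filter] at hj
    obtain ⟨k, hk⟩ := Option.ne_none_iff_exists'.mp hj.2
    rw [colr_eq hinj] at hk
    rw [Finset.mem_biUnion]
    refine ⟨k, k.2, ?_⟩
    rw [hS, Finset.mem_filter]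
    refine ⟨mem_univ _, ?_⟩
    have e : a - rs (emb (PR H z) j) k = a + ((k : ℕ) : ℤ) := by
      unfold rs
      ring
    rw [e] at hk
    exact Int.natCast_dvd.1 hk
  calc ((univ.filter (fun i => colr (PR H z) (rs (U := U)) a i ≠ none)).card : ℝ)
      ≤ ((U.biUnion S).card : ℝ) := by exact_mod_cast Finset.card_le_card hsub
    _ ≤ ((∑ k ∈ U, (S k).card : ℕ) : ℝ) := by exact_mod_cast Finset.card_biUnion_le
    _ = ∑ k ∈ U, ((S k).card : ℝ) := by push_cast; rfl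
    _ ≤ ∑ k ∈ U, 2 * Real.log X := Finset.sum_le_sum hScard
    _ = _ := by rw [Finset.sum_const, nsmul_eq_mul]

end Pool.Agent.H50.TL
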